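import Pool.Agent.SlabCover.Finite

set_option autoImplicit false

open Set

namespace Pool.Agent.SlabCover

lemma sub_interval (ρ u : ℝ) (h0 : 0 < ρ) (h1 : ρ ≤ 1 / 2) (hu : 0 ≤ u ∧ u ≤ 1) :
    ∃ k : ℝ, 0 ≤ k ∧ k + ρ ≤ 1 ∧ ∀ v, k ≤ v → v ≤ k + ρ → |v - u| ≤ ρ := by
  rcases le_total u (1 / 2) with h | h
  · refine ⟨u, hu.1, by linarith, ?_⟩
    intro v h2 h3
    rw [abs_le]; constructor <;> linarith
  · refine ⟨u - ρ, by linarith, by linarith [hu.2], ?_⟩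
    intro v h2 h3
    rw [abs_le]; constructor <;> linarith

/-- scaled version of the finite theorem -/
lemma scaled {ι : Type} (a : ι → ℝ × ℝ) (p : ι → ℝ) (ρ : ℝ)
    (h0 : 0 < ρ) (h1 : ρ ≤ 1 / 2)
    (ha : ∀ i, 0 ≤ (a i).1 ∧ (a i).1 ≤ 1 ∧ 0 ≤ (a i).2 ∧ (a i).2 ≤ 1)
    (hmain : ∀ c : ι → ℝ, ∃ (x : ℝ × ℝ) (z : ℝ), (0 ≤ x.1 ∧ x.1 ≤ 1) ∧ (0 ≤ x.2 ∧ x.2 ≤ 1) ∧
        (0 ≤ z ∧ z ≤ 1) ∧
        ∀ i, ¬ (-(3 * ρ) ≤ z + (lin (a i) x - c i) ∧ z + (lin (a i) x - c i) ≤ p i + 3 * ρ))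
    (r : ℝ) (hr : 0 < r) (y : (ℝ × ℝ) × ℝ) (c : ι → ℝ) :
    ∃ y' : (ℝ × ℝ) × ℝ,
      (y.1.1 ≤ y'.1.1 ∧ y'.1.1 + r * ρ ≤ y.1.1 + r) ∧
      (y.1.2 ≤ y'.1.2 ∧ y'.1.2 + r * ρ ≤ y.1.2 + r) ∧
      (y.2 ≤ y'.2 ∧ y'.2 + r * ρ ≤ y.2 + r) ∧
      ∀ (x : ℝ × ℝ) (z : ℝ), (y'.1.1 ≤ x.1 ∧ x.1 ≤ y'.1.1 + r * ρ) →
        (y'.1.2 ≤ x.2 ∧ x.2 ≤ y'.1.2 + r * ρ) → (y'.2 ≤ z ∧ z ≤ y'.2 + r * ρ) →
        ∀ i, ¬ (0 ≤ z + (lin (a i) x - c i) ∧ z + (lin (a i) x - c i) ≤ r * p i) := by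
  obtain ⟨x0, z0, hx1, hx2, hz, hun⟩ := hmain (fun i => (c i - y.2 - lin (a i) y.1) / r)
  obtain ⟨k1, k1a, k1b, k1c⟩ := sub_interval ρ x0.1 h0 h1 hx1
  obtain ⟨k2, k2a, k2b, k2c⟩ := sub_interval ρ x0.2 h0 h1 hx2
  obtain ⟨k3, k3a, k3b, k3c⟩ := sub_interval ρ z0 h0 h1 hz
  refine ⟨((y.1.1 + r * k1, y.1.2 + r * k2), y.2 + r * k3), ?_, ?_, ?_, ?_⟩
  · constructor
    · show y.1.1 ≤ y.1.1 + r * k1
      have := mul_nonneg hr.le k1a; linarith
    · show y.1.1 + r * k1 + r * ρ ≤ y.1.1 + r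
      nlinarith
  · constructor
    · show y.1.2 ≤ y.1.2 + r * k2
      have := mul_nonneg hr.le k2a; linarith
    · show y.1.2 + r * k2 + r * ρ ≤ y.1.2 + r
      nlinarith
  · constructor
    · show y.2 ≤ y.2 + r * k3
      have := mul_nonneg hr.le k3a; linarith
    · show y.2 + r * k3 + r * ρ ≤ y.2 + r
      nlinarith
  · intro x z hx1' hx2' hz' i hi
    simp only at hx1' hx2' hz'
    -- rescaled coordinates
    have e1 : x.1 = y.1.1 + r * ((x.1 - y.1.1) / r) := by field_simp; ring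
    have e2 : x.2 = y.1.2 + r * ((x.2 - y.1.2) / r) := by field_simp; ring
    have e3 : z = y.2 + r * ((z - y.2) / r) := by field_simp; ring
    set u1 := (x.1 - y.1.1) / r with hu1
    set u2 := (x.2 - y.1.2) / r with hu2
    set u3 := (z - y.2) / r with hu3
    have b1 : |u1 - x0.1| ≤ ρ := by
      apply k1c
      · rw [hu1, le_div_iff₀ hr]; linarith [hx1'.1]
      · rw [hu1, div_le_iff₀ hr]; linarith [hx1'.2]
    have b2 : |u2 - x0.2| ≤ ρ := by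
      apply k2c
      · rw [hu2, le_div_iff₀ hr]; linarith [hx2'.1]
      · rw [hu2, div_le_iff₀ hr]; linarith [hx2'.2]
    have b3 : |u3 - z0| ≤ ρ := by
      apply k3c
      · rw [hu3, le_div_iff₀ hr]; linarith [hz'.1]
      · rw [hu3, div_le_iff₀ hr]; linarith [hz'.2]
    obtain ⟨a0, a1, a2, a3⟩ := ha i
    have c1 : |(a i).1 * (u1 - x0.1)| ≤ ρ := by
      rw [abs_mul, abs_of_nonneg a0]
      calc (a i).1 * |u1 - x0.1| ≤ 1 * ρ := mul_le_mul a1 b1 (abs_nonneg _) zero_le_one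
        _ = ρ := one_mul _
    have c2 : |(a i).2 * (u2 - x0.2)| ≤ ρ := by
      rw [abs_mul, abs_of_nonneg a2]
      calc (a i).2 * |u2 - x0.2| ≤ 1 * ρ := mul_le_mul a3 b2 (abs_nonneg _) zero_le_one
        _ = ρ := one_mul _
    rw [abs_le] at b3 c1 c2
    set V : ℝ := u3 + (lin (a i) (u1, u2) - (c i - y.2 - lin (a i) y.1) / r) with hV
    have eV : z + (lin (a i) x - c i) = r * V := by
      rw [hV]
      unfold lin
      simp only
      have hrne : r ≠ 0 := hr.ne'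
      rw [e3]
      have ex : (a i).1 * x.1 + (a i).2 * x.2 =
        (a i).1 * (y.1.1 + r * u1) + (a i).2 * (y.1.2 + r * u2) := by rw [← e1, ← e2]
      rw [ex]
      field_simp
      ring
    rw [eV] at hi
    have hV0 : 0 ≤ V := by
      by_contra hneg
      push Not at hneg
      have := mul_neg_of_pos_of_neg hr hneg
      linarith [hi.1]
    have hV1 : V ≤ p i := le_of_mul_le_mul_left hi.2 hr
    apply hun i
    have hl : lin (a i) (u1, u2) - lin (a i) x0 = (a i).1 * (u1 - x0.1) + (a i).2 * (u2 - x0.2) := by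
      unfold lin; ring
    constructor
    · linarith [b3.1, b3.2, c1.1, c1.2, c2.1, c2.2]
    · linarith [b3.1, b3.2, c1.1, c1.2, c2.1, c2.2]

lemma nested (f R : ℕ → ℝ) (h1 : ∀ j, f j ≤ f (j + 1)) (h2 : ∀ j, f (j + 1) + R (j + 1) ≤ f j + R j)
    (h0 : ∀ j, 0 ≤ R j) : ∃ X : ℝ, ∀ j, f j ≤ X ∧ X ≤ f j + R j := by
  have m1 : Monotone f := monotone_nat_of_le_succ h1
  have m2 : Antitone (fun j => f j + R j) := antitone_nat_of_succ_le h2
  have h3 : ∀ i j, f i ≤ f j + R j := by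
    intro i j
    calc f i ≤ f (max i j) := m1 (le_max_left _ _)
      _ ≤ f (max i j) + R (max i j) := by linarith [h0 (max i j)]
      _ ≤ f j + R j := m2 (le_max_right i j)
  have bdd : BddAbove (range f) := ⟨f 0 + R 0, by rintro _ ⟨i, rfl⟩; exact h3 i 0⟩
  exact ⟨⨆ i, f i, fun j => ⟨le_ciSup bdd j, ciSup_le (fun i => h3 i j)⟩⟩

theorem exists_family_z :
    ∃ (β : Type) (_ : Countable β) (a : β → ℝ × ℝ) (P : β → ℝ),
      (∀ b, 0 < P b) ∧ (∀ i, 0 ≤ (a i).1 ∧ (a i).1 ≤ 1 ∧ 0 ≤ (a i).2 ∧ (a i).2 ≤ 1) ∧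
      ¬ Summable P ∧
      ∀ c : β → ℝ, ∃ (x : ℝ × ℝ) (z : ℝ), (0 ≤ x.1 ∧ x.1 ≤ 1) ∧ (0 ≤ x.2 ∧ x.2 ≤ 1) ∧
        (0 ≤ z ∧ z ≤ 1) ∧
        ∀ b, ¬ (0 ≤ z + (lin (a b) x - c b) ∧ z + (lin (a b) x - c b) ≤ P b) := by
  choose ι fι a p ρ hρ0 hρ1 hp ha hM hmain using finite_family
  let R : ℕ → ℝ := fun n => Nat.rec 1 (fun _ r => r * ρ (1 / r)) n
  have R0 : R 0 = 1 := rfl
  have Rs : ∀ n, R (n + 1) = R n * ρ (1 / R n) := fun n => rfl
  have Rpos : ∀ n, 0 < R n := by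
    intro n
    induction n with
    | zero => rw [R0]; norm_num
    | succ n ih => rw [Rs]; exact mul_pos ih (hρ0 _)
  refine ⟨Σ j : ℕ, ι (1 / R j), inferInstance, fun b => a (1 / R b.1) b.2,
    fun b => R b.1 * p (1 / R b.1) b.2, ?_, ?_, ?_, ?_⟩
  · intro b
    exact mul_pos (Rpos _) (hp _ _)
  · intro b
    exact ha _ _
  · intro hsum
    have h1 := hsum.sigma
    have h2 := h1.tendsto_atTop_zero
    have h3 : ∀ j : ℕ, 1 ≤ ∑' i, R (⟨j, i⟩ : Σ j : ℕ, ι (1 / R j)).1 *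
        p (1 / R (⟨j, i⟩ : Σ j : ℕ, ι (1 / R j)).1) (⟨j, i⟩ : Σ j : ℕ, ι (1 / R j)).2 := by
      intro j
      simp only
      rw [tsum_fintype, ← Finset.mul_sum]
      have h4 := hM (1 / R j)
      have h5 := mul_le_mul_of_nonneg_left h4 (Rpos j).le
      rw [mul_one_div_cancel (Rpos j).ne'] at h5
      exact h5
    have h4 := ge_of_tendsto' h2 h3
    linarith
  · intro c
    have hnext : ∀ (j : ℕ) (y : (ℝ × ℝ) × ℝ), _ := fun j y =>
      scaled (a (1 / R j)) (p (1 / R j)) (ρ (1 / R j)) (hρ0 _) (hρ1 _) (ha _) (hmain _) (R j)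
        (Rpos j) y (fun i => c ⟨j, i⟩)
    choose nx n1 n2 n3 n4 using hnext
    let Y : ℕ → (ℝ × ℝ) × ℝ := fun n => Nat.rec ((0, 0), 0) (fun j y => nx j y) n
    have Y0 : Y 0 = ((0, 0), 0) := rfl
    have Ys : ∀ n, Y (n + 1) = nx n (Y n) := fun n => rfl
    obtain ⟨X1, hX1⟩ := nested (fun j => (Y j).1.1) R
      (fun j => by show (Y j).1.1 ≤ (Y (j + 1)).1.1; rw [Ys]; exact (n1 j (Y j)).1)
      (fun j => by
        show (Y (j + 1)).1.1 + R (j + 1) ≤ (Y j).1.1 + R j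
        rw [Ys, Rs]; exact (n1 j (Y j)).2) (fun j => (Rpos j).le)
    obtain ⟨X2, hX2⟩ := nested (fun j => (Y j).1.2) R
      (fun j => by show (Y j).1.2 ≤ (Y (j + 1)).1.2; rw [Ys]; exact (n2 j (Y j)).1)
      (fun j => by
        show (Y (j + 1)).1.2 + R (j + 1) ≤ (Y j).1.2 + R j
        rw [Ys, Rs]; exact (n2 j (Y j)).2) (fun j => (Rpos j).le)
    obtain ⟨X3, hX3⟩ := nested (fun j => (Y j).2) R
      (fun j => by show (Y j).2 ≤ (Y (j + 1)).2; rw [Ys]; exact (n3 j (Y j)).1)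
      (fun j => by
        show (Y (j + 1)).2 + R (j + 1) ≤ (Y j).2 + R j
        rw [Ys, Rs]; exact (n3 j (Y j)).2) (fun j => (Rpos j).le)
    refine ⟨(X1, X2), X3, ?_, ?_, ?_, ?_⟩
    · have := hX1 0
      simp only [Y0, R0] at this
      exact ⟨this.1, by linarith [this.2]⟩
    · have := hX2 0
      simp only [Y0, R0] at this
      exact ⟨this.1, by linarith [this.2]⟩
    · have := hX3 0
      simp only [Y0, R0] at this
      exact ⟨this.1, by linarith [this.2]⟩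
    · rintro ⟨j, i⟩
      have m1 := hX1 (j + 1)
      have m2 := hX2 (j + 1)
      have m3 := hX3 (j + 1)
      simp only [Ys, Rs] at m1 m2 m3
      exact n4 j (Y j) (X1, X2) X3 m1 m2 m3 i

/-- sequence form, normals `(a₁,a₂,1)/√(1+a₁²+a₂²)` -/
theorem main3 :
    ∃ (u : ℕ → Fin 3 → ℝ) (p : ℕ → ℝ), (∀ i, ∑ k, (u i k) ^ 2 = 1) ∧ (∀ i, 0 < p i) ∧
      ¬ Summable p ∧
      ∀ A : ℕ → ℝ, ∃ x : Fin 3 → ℝ, (∀ j, 0 ≤ x j ∧ x j ≤ 1) ∧
        ∀ i, ¬ (A i ≤ ∑ k, u i k * x k ∧ ∑ k, u i k * x k ≤ A i + p i) := by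
  obtain ⟨β, hβ, a, P, hP, ha, hns, hmain⟩ := exists_family_z
  have : Infinite β := by
    by_contra h
    rw [not_infinite_iff_finite] at h
    exact hns (Summable.of_finite)
  obtain ⟨e⟩ : Nonempty (ℕ ≃ β) := nonempty_equiv_of_countable
  set Λ : ℕ → ℝ := fun i => Real.sqrt (1 + (a (e i)).1 ^ 2 + (a (e i)).2 ^ 2) with hΛ
  have Λpos : ∀ i, 0 < Λ i := fun i => Real.sqrt_pos.2 (by positivity)
  have Λsq : ∀ i, Λ i ^ 2 = 1 + (a (e i)).1 ^ 2 + (a (e i)).2 ^ 2 := fun i =>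
    Real.sq_sqrt (by positivity)
  have Λle : ∀ i, Λ i ≤ 2 := by
    intro i
    obtain ⟨a0, a1, a2, a3⟩ := ha (e i)
    rw [hΛ]
    simp only
    rw [Real.sqrt_le_left (by norm_num)]
    nlinarith
  refine ⟨fun i => ![(a (e i)).1 / Λ i, (a (e i)).2 / Λ i, 1 / Λ i], fun i => P (e i) / Λ i, ?_, ?_, ?_, ?_⟩
  · intro i
    have h1 := Λpos i
    have h2 := Λsq i
    rw [Fin.sum_univ_three]
    simp only [Matrix.cons_val_zero, Matrix.cons_val_one, Matrix.cons_val_two, Matrix.head_cons,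
      Matrix.tail_cons]
    rw [div_pow, div_pow, div_pow, ← add_div, ← add_div, h2, div_eq_one_iff_eq (by positivity)]
    ring
  · intro i
    exact div_pos (hP _) (Λpos i)
  · intro hs
    apply hns
    rw [← e.summable_iff]
    apply Summable.of_nonneg_of_le (f := fun i => 2 * (P (e i) / Λ i)) (fun i => (hP _).le) _
      (hs.mul_left 2)
    intro i
    show P (e i) ≤ 2 * (P (e i) / Λ i)
    have h1 := Λpos i
    have h2 := Λle i
    have h3 := hP (e i)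
    rw [← mul_div_assoc, le_div_iff₀ h1]
    nlinarith
  · intro A
    obtain ⟨x, z, hx1, hx2, hz, hun⟩ := hmain (fun b => Λ (e.symm b) * A (e.symm b))
    refine ⟨![x.1, x.2, z], ?_, ?_⟩
    · intro j
      fin_cases j
      · exact hx1
      · exact hx2
      · exact hz
    · intro i hi
      apply hun (e i)
      rw [Fin.sum_univ_three] at hi
      simp only [Matrix.cons_val_zero, Matrix.cons_val_one, Matrix.cons_val_two, Matrix.head_cons,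
        Matrix.tail_cons] at hi
      rw [e.symm_apply_apply]
      have h1 := Λpos i
      have e1 : (a (e i)).1 / Λ i * x.1 + (a (e i)).2 / Λ i * x.2 + 1 / Λ i * z =
          (z + lin (a (e i)) x) / Λ i := by
        unfold lin
        field_simp
        ring
      rw [e1, le_div_iff₀ h1, div_le_iff₀ h1, add_mul, div_mul_cancel₀ _ h1.ne'] at hi
      constructor
      · linarith [hi.1]
      · linarith [hi.2]

end Pool.Agent.SlabCover
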