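import Mathlib

set_option autoImplicit false

open MeasureTheory Set

namespace Pool.Agent.SlabCover

/-- indicator of `[0,w]` -/
noncomputable def box (w t : ℝ) : ℝ := if 0 ≤ t ∧ t ≤ w then 1 else 0

/-- clamp to `[0,w]` -/
noncomputable def cl (w t : ℝ) : ℝ := max 0 (min w t)

lemma box_nonneg (w t : ℝ) : 0 ≤ box w t := by unfold box; split_ifs <;> norm_num

lemma box_le_one (w t : ℝ) : box w t ≤ 1 := by unfold box; split_ifs <;> norm_num

lemma measurable_box (w : ℝ) : Measurable (box w) := by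
  show Measurable fun t : ℝ => if 0 ≤ t ∧ t ≤ w then (1 : ℝ) else 0
  exact Measurable.ite measurableSet_Icc measurable_const measurable_const

lemma integrable_box (w : ℝ) : Integrable (box w) volume := by
  have : box w = (Icc 0 w).indicator (fun _ => (1 : ℝ)) := by
    funext t
    unfold box
    by_cases h : 0 ≤ t ∧ t ≤ w
    · rw [if_pos h, indicator_of_mem (show t ∈ Icc 0 w from h)]
    · rw [if_neg h, indicator_of_notMem (show t ∉ Icc 0 w from h)]
  rw [this, integrable_indicator_iff measurableSet_Icc]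
  exact integrableOn_const (by simp)

lemma continuous_cl (w : ℝ) : Continuous (cl w) := by
  unfold cl
  fun_prop

lemma integral_box (w a b : ℝ) (hw : 0 ≤ w) : ∫ t in a..b, box w t = cl w b - cl w a := by
  apply MeasureTheory.integral_eq_of_hasDerivAt_off_countable (cl w) (box w) (s := {0, w})
  · exact (Set.toFinite _).countable
  · exact (continuous_cl w).continuousOn
  · rintro t ⟨-, ht⟩
    simp only [mem_insert_iff, mem_singleton_iff, not_or] at ht
    obtain ⟨h0, h1⟩ := ht
    rcases lt_trichotomy t 0 with h | h | h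
    · have e : box w t = 0 := by unfold box; rw [if_neg]; intro h2; linarith [h2.1]
      rw [e]
      apply (hasDerivAt_const t (0 : ℝ)).congr_of_eventuallyEq
      filter_upwards [Iio_mem_nhds h] with y hy
      unfold cl
      have hy' : y < 0 := hy
      rw [max_eq_left]
      exact (min_le_right _ _).trans hy'.le
    · exact absurd h h0
    · rcases lt_trichotomy t w with h' | h' | h'
      · have e : box w t = 1 := by unfold box; rw [if_pos]; exact ⟨h.le, h'.le⟩
        rw [e]
        apply (hasDerivAt_id t).congr_of_eventuallyEq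
        filter_upwards [Ioo_mem_nhds h h'] with y hy
        unfold cl
        rw [min_eq_right hy.2.le, max_eq_right hy.1.le]
        rfl
      · exact absurd h' h1
      · have e : box w t = 0 := by unfold box; rw [if_neg]; intro h2; linarith [h2.2]
        rw [e]
        apply (hasDerivAt_const t w).congr_of_eventuallyEq
        filter_upwards [Ioi_mem_nhds h'] with y hy
        have hy' : w < y := hy
        unfold cl
        rw [min_eq_left hy'.le, max_eq_right hw]
  · exact (integrable_box w).intervalIntegrable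

lemma cl_nonneg (w t : ℝ) : 0 ≤ cl w t := le_max_left _ _

lemma cl_le (w t : ℝ) (hw : 0 ≤ w) : cl w t ≤ w := max_le hw (min_le_left _ _)

/-- uniform measure on `[0,1]` -/
noncomputable def nu : Measure ℝ := volume.restrict (Icc 0 1)

instance : IsProbabilityMeasure nu := by
  refine ⟨?_⟩
  unfold nu
  simp

lemma nu_integral (f : ℝ → ℝ) : ∫ x, f x ∂nu = ∫ x in (0:ℝ)..1, f x := by
  unfold nu
  rw [intervalIntegral.integral_of_le zero_le_one, integral_Icc_eq_integral_Ioc]

lemma nu_comp (f F : ℝ → ℝ) (hf : ∀ a b, ∫ t in a..b, f t = F b - F a) (α β : ℝ) (hα : α ≠ 0) :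
    ∫ x, f (β + α * x) ∂nu = (F (β + α) - F β) / α := by
  rw [nu_integral, intervalIntegral.integral_comp_add_mul _ hα, hf]
  simp only [mul_zero, mul_one, add_zero, smul_eq_mul]
  field_simp

/-- bound for the measure of `{x ∈ [0,1] : 0 ≤ β + α x ≤ w}` -/
lemma nu_box_le (w : ℝ) (hw : 0 ≤ w) (α β : ℝ) (hα : α ≠ 0) :
    ∫ x, box w (β + α * x) ∂nu ≤ w / |α| := by
  rw [nu_comp (box w) (cl w) (fun a b => integral_box w a b hw) α β hα]
  have h1 := cl_nonneg w (β + α)
  have h2 := cl_nonneg w β
  have h3 := cl_le w (β + α) hw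
  have h4 := cl_le w β hw
  calc (cl w (β + α) - cl w β) / α ≤ |(cl w (β + α) - cl w β) / α| := le_abs_self _
    _ = |cl w (β + α) - cl w β| / |α| := abs_div _ _
    _ ≤ w / |α| := by
        apply div_le_div_of_nonneg_right _ (abs_nonneg _)
        rw [abs_le]; constructor <;> linarith

/-- the difference of the two kernels -/
noncomputable def kap (w s t : ℝ) : ℝ := box w t / w - box s t / s

noncomputable def prim (w s t : ℝ) : ℝ := cl w t / w - cl s t / s

lemma integral_kap (w s a b : ℝ) (hw : 0 < w) (hs : 0 < s) :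
    ∫ t in a..b, kap w s t = prim w s b - prim w s a := by
  unfold kap prim
  rw [intervalIntegral.integral_sub, intervalIntegral.integral_div, intervalIntegral.integral_div,
    integral_box w a b hw.le, integral_box s a b hs.le]
  · ring
  · exact ((integrable_box w).div_const w).intervalIntegrable
  · exact ((integrable_box s).div_const s).intervalIntegrable

lemma prim_nonneg (w s t : ℝ) (hw : 0 < w) (hs : w ≤ s) : 0 ≤ prim w s t := by
  have hs' : 0 < s := lt_of_lt_of_le hw hs
  unfold prim cl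
  rw [sub_nonneg, div_le_div_iff₀ hs' hw]
  rcases le_total t 0 with h | h
  · rw [max_eq_left ((min_le_right _ _).trans h), max_eq_left ((min_le_right _ _).trans h)]
    simp
  · rw [max_eq_right (le_min hs'.le h), max_eq_right (le_min hw.le h)]
    rcases le_total t w with h' | h'
    · rw [min_eq_right h', min_eq_right (h'.trans hs)]
      nlinarith
    · rw [min_eq_left h']
      have := min_le_left s t
      nlinarith

lemma prim_le_box (w s t : ℝ) (hw : 0 < w) (hs : w ≤ s) : prim w s t ≤ box s t := by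
  have hs' : 0 < s := lt_of_lt_of_le hw hs
  unfold prim box
  split_ifs with h
  · have h1 : cl w t / w ≤ 1 := by
      rw [div_le_one hw]; exact cl_le w t hw.le
    have h2 : 0 ≤ cl s t / s := div_nonneg (cl_nonneg _ _) hs'.le
    linarith
  · rw [not_and_or] at h
    unfold cl
    rcases h with h | h
    · push Not at h
      rw [max_eq_left ((min_le_right _ _).trans h.le), max_eq_left ((min_le_right _ _).trans h.le)]
      simp
    · push Not at h
      rw [min_eq_left h.le, min_eq_left (hs.trans h.le), max_eq_right hs'.le, max_eq_right hw.le,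
        div_self hw.ne', div_self hs'.ne']
      simp

lemma measurable_kap (w s : ℝ) : Measurable (kap w s) := by
  unfold kap
  exact ((measurable_box w).div_const w).sub ((measurable_box s).div_const s)

lemma abs_kap_le (w s t : ℝ) (hw : 0 < w) (hs : w ≤ s) : |kap w s t| ≤ 1 / w := by
  have hs' : 0 < s := lt_of_lt_of_le hw hs
  unfold kap
  have h1 : box w t / w ≤ 1 / w := div_le_div_of_nonneg_right (box_le_one _ _) hw.le
  have h2 : box s t / s ≤ 1 / w := by
    apply div_le_div₀ zero_le_one (box_le_one _ _) hw hs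
  have h3 : 0 ≤ box w t / w := div_nonneg (box_nonneg _ _) hw.le
  have h4 : 0 ≤ box s t / s := div_nonneg (box_nonneg _ _) hs'.le
  rw [abs_le]; constructor <;> linarith

lemma integrable_kap (w s : ℝ) : Integrable (kap w s) volume := by
  unfold kap
  exact ((integrable_box w).div_const w).sub ((integrable_box s).div_const s)

lemma integral_box_univ (w : ℝ) (hw : 0 ≤ w) : ∫ t, box w t = w := by
  have : box w = (Icc 0 w).indicator (fun _ => (1 : ℝ)) := by
    funext t
    unfold box
    by_cases h : 0 ≤ t ∧ t ≤ w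
    · rw [if_pos h, indicator_of_mem (show t ∈ Icc 0 w from h)]
    · rw [if_neg h, indicator_of_notMem (show t ∉ Icc 0 w from h)]
  rw [this, integral_indicator measurableSet_Icc]
  simp [hw]

lemma integral_abs_kap_le (w s : ℝ) (hw : 0 < w) (hs : 0 < s) : ∫ t, |kap w s t| ≤ 2 := by
  calc ∫ t, |kap w s t| ≤ ∫ t, (box w t / w + box s t / s) := by
        apply integral_mono (integrable_kap w s).abs
          (((integrable_box w).div_const w).add ((integrable_box s).div_const s))
        intro t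
        show |kap w s t| ≤ box w t / w + box s t / s
        unfold kap
        have h3 : 0 ≤ box w t / w := div_nonneg (box_nonneg _ _) hw.le
        have h4 : 0 ≤ box s t / s := div_nonneg (box_nonneg _ _) hs.le
        rw [abs_le]; constructor <;> linarith
    _ = 2 := by
        rw [integral_add ((integrable_box w).div_const w) ((integrable_box s).div_const s),
          integral_div, integral_div, integral_box_univ w hw.le, integral_box_univ s hs.le,
          div_self hw.ne', div_self hs.ne']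
        norm_num

/-- a function bounded by `C` has integral bounded by `C` against a probability measure -/
lemma abs_integral_le_of_abs_le {X : Type*} [MeasurableSpace X] (m : Measure X)
    [IsProbabilityMeasure m] (f : X → ℝ) (C : ℝ) (h : ∀ x, |f x| ≤ C) : |∫ x, f x ∂m| ≤ C := by
  have := norm_integral_le_of_norm_le_const (μ := m) (f := f) (C := C)
    (Filter.Eventually.of_forall (fun x => by rw [Real.norm_eq_abs]; exact h x))
  rw [Real.norm_eq_abs] at this
  simpa using this

lemma integrable_of_bdd {X : Type*} [MeasurableSpace X] (m : Measure X)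
    [IsFiniteMeasure m] (f : X → ℝ) (hf : Measurable f) (C : ℝ) (h : ∀ x, |f x| ≤ C) :
    Integrable f m := by
  apply Integrable.of_bound hf.aestronglyMeasurable C
  exact Filter.Eventually.of_forall (fun x => by rw [Real.norm_eq_abs]; exact h x)

lemma abs_box_le (w t : ℝ) : |box w t| ≤ 1 := by
  rw [abs_of_nonneg (box_nonneg _ _)]; exact box_le_one _ _

lemma inner_int (w s : ℝ) (hw : 0 < w) (hs : w ≤ s) (α β : ℝ) (hα : α ≠ 0) :
    |∫ x, kap w s (β + α * x) ∂nu| ≤ 1 / |α| := by
  have hs' : 0 < s := lt_of_lt_of_le hw hs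
  rw [nu_comp (kap w s) (prim w s) (fun a b => integral_kap w s a b hw hs') α β hα, abs_div]
  apply div_le_div_of_nonneg_right _ (abs_nonneg _)
  have h1 := prim_nonneg w s (β + α) hw hs
  have h2 := prim_nonneg w s β hw hs
  have h3 := (prim_le_box w s (β + α) hw hs).trans (box_le_one _ _)
  have h4 := (prim_le_box w s β hw hs).trans (box_le_one _ _)
  rw [abs_le]; constructor <;> linarith

lemma measurable_kap_lin (w s α₁ α₂ β : ℝ) :
    Measurable (fun x : ℝ × ℝ => kap w s (β + α₁ * x.1 + α₂ * x.2)) := by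
  apply (measurable_kap w s).comp
  fun_prop

lemma integrable_kap_lin (w s : ℝ) (hw : 0 < w) (hs : w ≤ s) (α₁ α₂ β : ℝ) :
    Integrable (fun x : ℝ × ℝ => kap w s (β + α₁ * x.1 + α₂ * x.2)) (nu.prod nu) :=
  integrable_of_bdd _ _ (measurable_kap_lin w s α₁ α₂ β) (1 / w) (fun x => abs_kap_le w s _ hw hs)

lemma G_le_two (w s : ℝ) (hw : 0 < w) (hs : w ≤ s) (α₁ α₂ β : ℝ) (h2 : α₂ ≠ 0) :
    |∫ x, kap w s (β + α₁ * x.1 + α₂ * x.2) ∂(nu.prod nu)| ≤ 1 / |α₂| := by
  rw [integral_prod _ (integrable_kap_lin w s hw hs α₁ α₂ β)]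
  apply abs_integral_le_of_abs_le
  intro x
  exact inner_int w s hw hs α₂ (β + α₁ * x) h2

lemma G_le_one (w s : ℝ) (hw : 0 < w) (hs : w ≤ s) (α₁ α₂ β : ℝ) (h1 : α₁ ≠ 0) :
    |∫ x, kap w s (β + α₁ * x.1 + α₂ * x.2) ∂(nu.prod nu)| ≤ 1 / |α₁| := by
  rw [integral_prod_symm _ (integrable_kap_lin w s hw hs α₁ α₂ β)]
  apply abs_integral_le_of_abs_le
  intro y
  have := inner_int w s hw hs α₁ (β + α₂ * y) h1
  convert this using 5
  ring

lemma prim_int (w s : ℝ) (hw : 0 < w) (hs : w ≤ s) (α β : ℝ) (hα : α ≠ 0) :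
    ∫ x, prim w s (β + α * x) ∂nu ≤ s / |α| := by
  have hs' : 0 < s := lt_of_lt_of_le hw hs
  refine le_trans ?_ (nu_box_le s hs'.le α β hα)
  have hm1 : Measurable (prim w s) := by
    unfold prim
    exact (((continuous_cl w).measurable).div_const w).sub (((continuous_cl s).measurable).div_const s)
  apply integral_mono
  · apply integrable_of_bdd _ _ (hm1.comp (by fun_prop)) 1
    intro x
    show |prim w s (β + α * x)| ≤ 1
    rw [abs_of_nonneg (prim_nonneg w s _ hw hs)]
    exact (prim_le_box w s _ hw hs).trans (box_le_one _ _)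
  · apply integrable_of_bdd _ _ ((measurable_box s).comp (by fun_prop)) 1
    intro x
    exact abs_box_le _ _
  · intro x
    exact prim_le_box w s _ hw hs

lemma prim_int_nonneg (w s : ℝ) (hw : 0 < w) (hs : w ≤ s) (α β : ℝ) :
    0 ≤ ∫ x, prim w s (β + α * x) ∂nu :=
  integral_nonneg (fun x => prim_nonneg w s _ hw hs)

lemma G_le_three (w s : ℝ) (hw : 0 < w) (hs : w ≤ s) (α₁ α₂ β : ℝ) (h1 : α₁ ≠ 0) (h2 : α₂ ≠ 0) :
    |∫ x, kap w s (β + α₁ * x.1 + α₂ * x.2) ∂(nu.prod nu)| ≤ s / (|α₁| * |α₂|) := by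
  have hs' : 0 < s := lt_of_lt_of_le hw hs
  have hm1 : Measurable (prim w s) := by
    unfold prim
    exact (((continuous_cl w).measurable).div_const w).sub (((continuous_cl s).measurable).div_const s)
  have hbd : ∀ γ, Integrable (fun x => prim w s (γ + α₂ * x)) nu := by
    intro γ
    apply integrable_of_bdd _ _ (hm1.comp (by fun_prop)) 1
    intro x
    show |prim w s (γ + α₂ * x)| ≤ 1
    rw [abs_of_nonneg (prim_nonneg w s _ hw hs)]
    exact (prim_le_box w s _ hw hs).trans (box_le_one _ _)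
  rw [integral_prod_symm _ (integrable_kap_lin w s hw hs α₁ α₂ β)]
  have e : ∀ y : ℝ, ∫ x, kap w s (β + α₁ * x + α₂ * y) ∂nu =
      (prim w s ((β + α₁) + α₂ * y) - prim w s (β + α₂ * y)) / α₁ := by
    intro y
    have := nu_comp (kap w s) (prim w s) (fun a b => integral_kap w s a b hw hs') α₁ (β + α₂ * y) h1
    rw [show (β + α₁) + α₂ * y = β + α₂ * y + α₁ by ring, ← this]
    congr 1
    funext x
    congr 1
    ring
  simp only [e]
  rw [integral_div, integral_sub (hbd _) (hbd _), abs_div, ← div_div]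
  rw [div_right_comm]
  apply div_le_div_of_nonneg_right _ (abs_nonneg _)
  have a1 := prim_int w s hw hs α₂ (β + α₁) h2
  have a2 := prim_int w s hw hs α₂ β h2
  have a3 := prim_int_nonneg w s hw hs α₂ (β + α₁)
  have a4 := prim_int_nonneg w s hw hs α₂ β
  rw [abs_le]; constructor <;> linarith

/-- fourth root -/
noncomputable def rt (t : ℝ) : ℝ := Real.sqrt (Real.sqrt t)

lemma rt_nonneg (t : ℝ) : 0 ≤ rt t := Real.sqrt_nonneg _

lemma rt_pos {t : ℝ} (ht : 0 < t) : 0 < rt t := Real.sqrt_pos.2 (Real.sqrt_pos.2 ht)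

lemma rt_pow {t : ℝ} (ht : 0 ≤ t) : rt t ^ 4 = t := by
  unfold rt
  calc Real.sqrt (Real.sqrt t) ^ 4 = (Real.sqrt (Real.sqrt t) ^ 2) ^ 2 := by ring
    _ = t := by rw [Real.sq_sqrt (Real.sqrt_nonneg _), Real.sq_sqrt ht]

lemma rt_sq (t : ℝ) : rt t ^ 2 = Real.sqrt t := by
  unfold rt
  rw [Real.sq_sqrt (Real.sqrt_nonneg _)]

/-- interpolated bound -/
lemma G_bound (w s : ℝ) (hw : 0 < w) (hs : w ≤ s) (α₁ α₂ β : ℝ) (h1 : α₁ ≠ 0) (h2 : α₂ ≠ 0) :
    |∫ x, kap w s (β + α₁ * x.1 + α₂ * x.2) ∂(nu.prod nu)| ≤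
      rt s ^ 2 / (rt |α₁| ^ 3 * rt |α₂| ^ 3) := by
  have hs' : 0 < s := lt_of_lt_of_le hw hs
  set G := |∫ x, kap w s (β + α₁ * x.1 + α₂ * x.2) ∂(nu.prod nu)| with hG
  have g1 := G_le_one w s hw hs α₁ α₂ β h1
  have g2 := G_le_two w s hw hs α₁ α₂ β h2
  have g3 := G_le_three w s hw hs α₁ α₂ β h1 h2
  rw [← hG] at g1 g2 g3
  have hG0 : 0 ≤ G := abs_nonneg _
  have p1 : 0 < |α₁| := abs_pos.2 h1
  have p2 : 0 < |α₂| := abs_pos.2 h2
  set r1 := rt |α₁| with hr1
  set r2 := rt |α₂| with hr2
  set q := rt s with hq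
  have q1 : 0 < r1 := rt_pos p1
  have q2 : 0 < r2 := rt_pos p2
  have q3 : 0 < q := rt_pos hs'
  have e1 : |α₁| = r1 ^ 4 := (rt_pow p1.le).symm
  have e2 : |α₂| = r2 ^ 4 := (rt_pow p2.le).symm
  have e3 : s = q ^ 4 := (rt_pow hs'.le).symm
  rw [e1] at g1 g3
  rw [e2] at g2 g3
  rw [e3] at g3
  have f1 : G * r1 ^ 4 ≤ 1 := by
    rw [le_div_iff₀ (by positivity)] at g1; exact g1
  have f2 : G * r2 ^ 4 ≤ 1 := by
    rw [le_div_iff₀ (by positivity)] at g2; exact g2
  have f3 : G * (r1 ^ 4 * r2 ^ 4) ≤ q ^ 4 := by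
    rw [le_div_iff₀ (by positivity)] at g3; exact g3
  have f4 : G * (r1 ^ 2 * r2 ^ 2) ≤ 1 := by
    rw [← pow_le_pow_iff_left₀ (by positivity) zero_le_one (two_ne_zero)]
    calc (G * (r1 ^ 2 * r2 ^ 2)) ^ 2 = (G * r1 ^ 4) * (G * r2 ^ 4) := by ring
      _ ≤ 1 * 1 := mul_le_mul f1 f2 (by positivity) zero_le_one
      _ = 1 ^ 2 := by norm_num
  rw [le_div_iff₀ (by positivity)]
  rw [← pow_le_pow_iff_left₀ (by positivity) (by positivity) (two_ne_zero)]
  calc (G * (r1 ^ 3 * r2 ^ 3)) ^ 2 = (G * (r1 ^ 4 * r2 ^ 4)) * (G * (r1 ^ 2 * r2 ^ 2)) := by ring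
    _ ≤ q ^ 4 * 1 := mul_le_mul f3 f4 (by positivity) (by positivity)
    _ = (q ^ 2) ^ 2 := by ring

end Pool.Agent.SlabCover
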