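import Pool.Agent.SlabCover.Step

set_option autoImplicit false

open MeasureTheory Set

namespace Pool.Agent.SlabCover

lemma Osc.mono {g : (ℝ × ℝ) × ℝ → ℝ} {L M : ℝ} (h : Osc g L) (hLM : L ≤ M) : Osc g M := by
  obtain ⟨κ, f, r, a, c, h1, h2, h3⟩ := h
  exact ⟨κ, f, r, a, c, h1, h2.trans hLM, h3⟩

lemma osc_const (v : ℝ) : Osc (fun _ => v) 0 := by
  refine ⟨Empty, inferInstance, fun _ => 0, fun _ => 0, fun _ => 0, fun _ => le_refl _, by simp, ?_⟩
  intro x t w z z' _ _
  simp

lemma box_osc (v t w z z' y : ℝ) (hz : z ∈ Icc (-t) (-t + w)) (hz' : z' ∈ Icc (-t) (-t + w)) :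
    |box v (z + y) - box v (z' + y)| ≤ box w (t - y) + box w (t - (y - v)) := by
  have n1 := box_nonneg w (t - y)
  have n2 := box_nonneg w (t - (y - v))
  have tot : |box v (z + y) - box v (z' + y)| ≤ 1 := by
    have a1 := box_nonneg v (z + y)
    have a2 := box_nonneg v (z' + y)
    have a3 := box_le_one v (z + y)
    have a4 := box_le_one v (z' + y)
    rw [abs_le]; constructor <;> linarith
  by_cases h1 : 0 ≤ t - y ∧ t - y ≤ w
  · have : box w (t - y) = 1 := by unfold box; rw [if_pos h1]
    linarith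
  · by_cases h2 : 0 ≤ t - (y - v) ∧ t - (y - v) ≤ w
    · have : box w (t - (y - v)) = 1 := by unfold box; rw [if_pos h2]
      linarith
    · have e : box v (z + y) = box v (z' + y) := by
        unfold box
        have hz1 := hz.1
        have hz2 := hz.2
        have hz3 := hz'.1
        have hz4 := hz'.2
        congr 1
        apply propext
        constructor
        · rintro ⟨g1, g2⟩
          constructor
          · by_contra g3
            push Not at g3
            apply h1
            constructor <;> linarith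
          · by_contra g3
            push Not at g3
            apply h2
            constructor <;> linarith
        · rintro ⟨g1, g2⟩
          constructor
          · by_contra g3
            push Not at g3
            apply h1
            constructor <;> linarith
          · by_contra g3
            push Not at g3
            apply h2
            constructor <;> linarith
      rw [e, sub_self, abs_zero]
      linarith

lemma osc_box (v : ℝ) (a : ℝ × ℝ) (c : ℝ) :
    Osc (fun q => box v (q.2 + (lin a q.1 - c))) 2 := by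
  refine ⟨Bool, inferInstance, fun _ => 1, fun _ => a, fun b => if b then c else c + v,
    fun _ => zero_le_one, by simp, ?_⟩
  intro x t w z z' hz hz'
  rw [Fintype.sum_bool]
  simp only [if_true, one_mul]
  have := box_osc v t w z z' (lin a x - c) hz hz'
  simp only [Bool.false_eq_true, if_false]
  rw [show lin a x - (c + v) = lin a x - c - v by ring]
  exact this

lemma osc_add {g h : (ℝ × ℝ) × ℝ → ℝ} {L M : ℝ} (hg : Osc g L) (hh : Osc h M) :
    Osc (fun q => g q + h q) (L + M) := by
  obtain ⟨κ, f, r, a, c, h1, h2, h3⟩ := hg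
  obtain ⟨κ', f', r', a', c', h1', h2', h3'⟩ := hh
  refine ⟨κ ⊕ κ', inferInstance, Sum.elim r r', Sum.elim a a', Sum.elim c c', ?_, ?_, ?_⟩
  · rintro (j | j)
    · exact h1 j
    · exact h1' j
  · rw [Fintype.sum_sum_type]
    simp only [Sum.elim_inl, Sum.elim_inr]
    linarith
  · intro x t w z z' hz hz'
    rw [Fintype.sum_sum_type]
    simp only [Sum.elim_inl, Sum.elim_inr]
    have b1 := h3 x t w z z' hz hz'
    have b2 := h3' x t w z z' hz hz'
    calc |g (x, z) + h (x, z) - (g (x, z') + h (x, z'))|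
        = |(g (x, z) - g (x, z')) + (h (x, z) - h (x, z'))| := by congr 1; ring
      _ ≤ |g (x, z) - g (x, z')| + |h (x, z) - h (x, z')| := abs_add_le _ _
      _ ≤ _ := add_le_add b1 b2

lemma osc_mul {g h : (ℝ × ℝ) × ℝ → ℝ} {L M : ℝ} (hg : Osc g L) (hh : Osc h M)
    (bg : ∀ q, |g q| ≤ 1) (bh : ∀ q, |h q| ≤ 1) :
    Osc (fun q => g q * h q) (L + M) := by
  obtain ⟨κ, f, r, a, c, h1, h2, h3⟩ := hg
  obtain ⟨κ', f', r', a', c', h1', h2', h3'⟩ := hh
  refine ⟨κ ⊕ κ', inferInstance, Sum.elim r r', Sum.elim a a', Sum.elim c c', ?_, ?_, ?_⟩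
  · rintro (j | j)
    · exact h1 j
    · exact h1' j
  · rw [Fintype.sum_sum_type]
    simp only [Sum.elim_inl, Sum.elim_inr]
    linarith
  · intro x t w z z' hz hz'
    rw [Fintype.sum_sum_type]
    simp only [Sum.elim_inl, Sum.elim_inr]
    have b1 := h3 x t w z z' hz hz'
    have b2 := h3' x t w z z' hz hz'
    calc |g (x, z) * h (x, z) - (g (x, z') * h (x, z'))|
        = |(g (x, z) - g (x, z')) * h (x, z) + g (x, z') * (h (x, z) - h (x, z'))| := by
          congr 1; ring
      _ ≤ |(g (x, z) - g (x, z')) * h (x, z)| + |g (x, z') * (h (x, z) - h (x, z'))| :=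
          abs_add_le _ _
      _ = |g (x, z) - g (x, z')| * |h (x, z)| + |g (x, z')| * |h (x, z) - h (x, z')| := by
          rw [abs_mul, abs_mul]
      _ ≤ |g (x, z) - g (x, z')| * 1 + 1 * |h (x, z) - h (x, z')| :=
          add_le_add (mul_le_mul_of_nonneg_left (bh _) (abs_nonneg _))
            (mul_le_mul_of_nonneg_right (bg _) (abs_nonneg _))
      _ ≤ _ := by rw [mul_one, one_mul]; exact add_le_add b1 b2

lemma osc_smul {g : (ℝ × ℝ) × ℝ → ℝ} {L : ℝ} (v : ℝ) (hv : 0 ≤ v) (hg : Osc g L) :
    Osc (fun q => v * g q) (v * L) := by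
  obtain ⟨κ, f, r, a, c, h1, h2, h3⟩ := hg
  refine ⟨κ, f, fun j => v * r j, a, c, fun j => mul_nonneg hv (h1 j), ?_, ?_⟩
  · rw [← Finset.mul_sum]; exact mul_le_mul_of_nonneg_left h2 hv
  · intro x t w z z' hz hz'
    rw [← mul_sub, abs_mul, abs_of_nonneg hv]
    simp only [mul_assoc]
    rw [← Finset.mul_sum]
    exact mul_le_mul_of_nonneg_left (h3 x t w z z' hz hz') hv

lemma osc_one_sub {g : (ℝ × ℝ) × ℝ → ℝ} {L : ℝ} (hg : Osc g L) :
    Osc (fun q => 1 - g q) L := by
  obtain ⟨κ, f, r, a, c, h1, h2, h3⟩ := hg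
  refine ⟨κ, f, r, a, c, h1, h2, ?_⟩
  intro x t w z z' hz hz'
  have := h3 x t w z z' hz hz'
  rw [show (1 - g (x, z)) - (1 - g (x, z')) = -(g (x, z) - g (x, z')) by ring, abs_neg]
  exact this

lemma osc_sum {β : Type*} (T : Finset β) (f : β → (ℝ × ℝ) × ℝ → ℝ) (L : ℝ) (h : ∀ i ∈ T, Osc (f i) L) :
    Osc (fun q => ∑ i ∈ T, f i q) (T.card * L) := by
  classical
  induction T using Finset.induction_on with
  | empty => simpa using osc_const 0
  | insert i T hi ih =>
    have h1 := osc_add (h i (Finset.mem_insert_self i T)) (ih (fun j hj => h j (Finset.mem_insert_of_mem hj)))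
    simp only [Finset.sum_insert hi]
    apply h1.mono
    rw [Finset.card_insert_of_notMem hi]
    push_cast
    linarith

lemma osc_prod {β : Type*} (T : Finset β) (f : β → (ℝ × ℝ) × ℝ → ℝ) (L : ℝ) (h : ∀ i ∈ T, Osc (f i) L)
    (hb : ∀ i ∈ T, ∀ q, |f i q| ≤ 1) :
    Osc (fun q => ∏ i ∈ T, f i q) (T.card * L) := by
  classical
  induction T using Finset.induction_on with
  | empty => simpa using osc_const 1
  | insert i T hi ih =>
    have hb' : ∀ q, |∏ j ∈ T, f j q| ≤ 1 := by
      intro q
      rw [Finset.abs_prod]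
      apply Finset.prod_le_one
      · intro j _; exact abs_nonneg _
      · intro j hj; exact hb j (Finset.mem_insert_of_mem hj) q
    have h1 := osc_mul (h i (Finset.mem_insert_self i T))
      (ih (fun j hj => h j (Finset.mem_insert_of_mem hj))
        (fun j hj => hb j (Finset.mem_insert_of_mem hj)))
      (hb i (Finset.mem_insert_self i T)) hb'
    simp only [Finset.prod_insert hi]
    apply h1.mono
    rw [Finset.card_insert_of_notMem hi]
    push_cast
    linarith

/-- indicator of the uncovered set -/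
noncomputable def unc {ι : Type} [Fintype ι] (a : ι → ℝ × ℝ) (p : ι → ℝ) (c : ι → ℝ)
    (q : (ℝ × ℝ) × ℝ) : ℝ := ∏ i, (1 - box (p i) (q.2 + (lin (a i) q.1 - c i)))

lemma one_sub_box_mem (v t : ℝ) : 0 ≤ 1 - box v t ∧ 1 - box v t ≤ 1 := by
  have := box_nonneg v t
  have := box_le_one v t
  constructor <;> linarith

lemma unc_nonneg {ι : Type} [Fintype ι] (a : ι → ℝ × ℝ) (p : ι → ℝ) (c : ι → ℝ)
    (q : (ℝ × ℝ) × ℝ) : 0 ≤ unc a p c q :=
  Finset.prod_nonneg (fun i _ => (one_sub_box_mem _ _).1)

lemma unc_le_one {ι : Type} [Fintype ι] (a : ι → ℝ × ℝ) (p : ι → ℝ) (c : ι → ℝ)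
    (q : (ℝ × ℝ) × ℝ) : unc a p c q ≤ 1 :=
  Finset.prod_le_one (fun i _ => (one_sub_box_mem _ _).1) (fun i _ => (one_sub_box_mem _ _).2)

lemma measurable_unc {ι : Type} [Fintype ι] (a : ι → ℝ × ℝ) (p : ι → ℝ) (c : ι → ℝ) :
    Measurable (unc a p c) := by
  unfold unc
  apply Finset.measurable_prod
  intro i _
  exact measurable_const.sub
    (measurable_shear (box (p i)) (measurable_box _) (fun x => lin (a i) x - c i) (measurable_lin_sub _ _))

lemma one_sub_sum_le_prod {β : Type*} (T : Finset β) (x : β → ℝ) (h0 : ∀ i ∈ T, 0 ≤ x i)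
    (h1 : ∀ i ∈ T, x i ≤ 1) : 1 - ∑ i ∈ T, x i ≤ ∏ i ∈ T, (1 - x i) := by
  classical
  induction T using Finset.induction_on with
  | empty => simp
  | insert i T hi ih =>
    rw [Finset.sum_insert hi, Finset.prod_insert hi]
    have ih' := ih (fun j hj => h0 j (Finset.mem_insert_of_mem hj))
      (fun j hj => h1 j (Finset.mem_insert_of_mem hj))
    have a0 := h0 i (Finset.mem_insert_self i T)
    have a1 := h1 i (Finset.mem_insert_self i T)
    have s0 : 0 ≤ ∑ j ∈ T, x j := Finset.sum_nonneg (fun j hj => h0 j (Finset.mem_insert_of_mem hj))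
    calc 1 - (x i + ∑ j ∈ T, x j) ≤ (1 - x i) * (1 - ∑ j ∈ T, x j) := by nlinarith
      _ ≤ (1 - x i) * ∏ j ∈ T, (1 - x j) := mul_le_mul_of_nonneg_left ih' (by linarith)

lemma exp_bound (t : ℝ) (h0 : 0 ≤ t) (h1 : t ≤ 1 / 2) : Real.exp (-2 * t) ≤ 1 - t := by
  have h2 : 1 + 2 * t ≤ Real.exp (2 * t) := by
    have := Real.add_one_le_exp (2 * t); linarith
  rw [show (-2 : ℝ) * t = -(2 * t) by ring, Real.exp_neg, inv_le_comm₀ (Real.exp_pos _) (by linarith)]
  refine le_trans ?_ h2
  rw [inv_le_iff_one_le_mul₀ (by linarith)]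
  nlinarith

lemma Tst.mul {g h : (ℝ × ℝ) × ℝ → ℝ} (hg : Tst g) (mh : Measurable h) (h0 : ∀ q, 0 ≤ h q)
    (h1 : ∀ q, h q ≤ 1) : Tst (fun q => g q * h q) := by
  refine ⟨hg.meas.mul mh, fun q => mul_nonneg (hg.nn q) (h0 q), fun q => ?_, fun q hq => ?_⟩
  · have := mul_le_mul (hg.le1 q) (h1 q) (h0 q) zero_le_one
    simpa using this
  · rw [hg.supp q hq, zero_mul]

lemma Tst.integrable_mul {g h : (ℝ × ℝ) × ℝ → ℝ} (hg : Tst g) (mh : Measurable h) (C : ℝ)
    (hC : ∀ q, |h q| ≤ C) : Integrable (fun q => g q * h q) mu := by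
  have hi : Integrable g mu := by
    apply (integrable_box_snd 1).mono' hg.meas.aestronglyMeasurable
    exact Filter.Eventually.of_forall (fun q => by
      rw [Real.norm_eq_abs, abs_of_nonneg (hg.nn q)]; exact hg.le_box q)
  apply hi.mul_bdd (c := C) mh.aestronglyMeasurable
  exact Filter.Eventually.of_forall (fun q => by rw [Real.norm_eq_abs]; exact hC q)

theorem family (s ε δ : ℝ) (hs : 0 < s) (hε : 0 < ε) (hδ : 0 < δ) (hδs : δ ≤ s / 2) (K : ℕ) :
    ∀ L : ℝ, 0 ≤ L → ∃ (ι : Type) (_ : Fintype ι) (a : ι → ℝ × ℝ) (p : ι → ℝ),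
      (∀ i, 0 < p i) ∧ (∀ i, 0 ≤ (a i).1 ∧ (a i).1 ≤ 1 ∧ 0 ≤ (a i).2 ∧ (a i).2 ≤ 1) ∧
      ∑ i, p i = K * δ ∧
      ∀ c : ι → ℝ, ∃ Q S : (ℝ × ℝ) × ℝ → ℝ, Measurable Q ∧ (∀ q, 0 ≤ Q q) ∧ (∀ q, Q q ≤ 1) ∧
        (∀ q, Real.exp (-2 * S q) ≤ Q q) ∧ Integrable S mu ∧ (∀ q, 0 ≤ S q) ∧
        ∫ q, S q ∂mu = K * δ ∧ Osc Q (K * (2 * δ / s)) ∧
        ∀ g, Tst g → Osc g L →
          ∫ q, g q * Q q ∂mu ≤ ∫ q, g q * unc a p c q ∂mu + K * δ * (12 * rt s + ε) := by
  induction K with
  | zero =>
    intro L hL
    refine ⟨Empty, inferInstance, fun _ => 0, fun _ => 1, fun i => i.elim, fun i => i.elim, by simp, ?_⟩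
    intro c
    refine ⟨fun _ => 1, fun _ => 0, measurable_const, fun _ => zero_le_one, fun _ => le_refl _,
      fun _ => by simp, integrable_zero _ _ _, fun _ => le_refl _, by simp, ?_, ?_⟩
    · simpa using osc_const 1
    · intro g hg _
      simp [unc]
  | succ K ih =>
    intro L hL
    obtain ⟨n, hn, hstep⟩ := step s ε δ (L + K * (2 * δ / s)) hs hε hδ (by positivity)
    have hn' : (0 : ℝ) < n := by exact_mod_cast hn
    obtain ⟨ι, fι, a, p, hp, ha, hsum, hfam⟩ := ih (L + 2 * (n : ℝ) ^ 2) (by positivity)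
    set p0 : ℝ := δ / (n : ℝ) ^ 2 with hp0
    have hp0' : 0 < p0 := by positivity
    refine ⟨(Fin n × Fin n) ⊕ ι, inferInstance, Sum.elim (gs n) a, Sum.elim (fun _ => p0) p,
      ?_, ?_, ?_, ?_⟩
    · rintro (i | i)
      · exact hp0'
      · exact hp i
    · rintro (i | i)
      · simp only [Sum.elim_inl]
        unfold gs
        have b1 : (i.1.1 : ℝ) ≤ n := by exact_mod_cast i.1.2.le
        have b2 : (i.2.1 : ℝ) ≤ n := by exact_mod_cast i.2.2.le
        refine ⟨by positivity, ?_, by positivity, ?_⟩
        · rw [div_le_one hn']; exact b1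
        · rw [div_le_one hn']; exact b2
      · exact ha i
    · rw [Fintype.sum_sum_type]
      simp only [Sum.elim_inl, Sum.elim_inr]
      rw [hsum, Finset.sum_const, Finset.card_univ, Fintype.card_prod, Fintype.card_fin, nsmul_eq_mul]
      push_cast
      rw [hp0]
      field_simp
      ring
    · intro c
      set c1 : Fin n × Fin n → ℝ := fun i => c (Sum.inl i) with hc1
      set c2 : ι → ℝ := fun i => c (Sum.inr i) with hc2
      obtain ⟨Q, S, mQ, Q0, Q1, QS, iS, S0, iSe, oQ, hmain⟩ := hfam c2
      -- the smoothed density of the new group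
      set F : (ℝ × ℝ) × ℝ → ℝ := fun q => ∑ i, p0 / s * box s (q.2 + (lin (gs n i) q.1 - c1 i)) with hF
      set m : (ℝ × ℝ) × ℝ → ℝ := fun q => ∑ i, box p0 (q.2 + (lin (gs n i) q.1 - c1 i)) with hm
      have F0 : ∀ q, 0 ≤ F q := fun q =>
        Finset.sum_nonneg (fun i _ => mul_nonneg (by positivity) (box_nonneg _ _))
      have F1 : ∀ q, F q ≤ 1 / 2 := by
        intro q
        calc F q ≤ ∑ _i : Fin n × Fin n, p0 / s := by
              apply Finset.sum_le_sum
              intro i _
              have := mul_le_mul_of_nonneg_left (box_le_one s (q.2 + (lin (gs n i) q.1 - c1 i)))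
                (show 0 ≤ p0 / s by positivity)
              simpa using this
          _ = δ / s := by
              rw [Finset.sum_const, Finset.card_univ, Fintype.card_prod, Fintype.card_fin,
                nsmul_eq_mul, hp0]
              push_cast
              field_simp
          _ ≤ 1 / 2 := by
              rw [div_le_iff₀ hs]; linarith
      have mF : Measurable F := by
        rw [hF]
        apply Finset.measurable_sum
        intro i _
        exact (measurable_shear (box s) (measurable_box s) (fun x => lin (gs n i) x - c1 i)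
          (measurable_lin_sub _ _)).const_mul _
      have iF : Integrable F mu := by
        rw [hF]
        exact integrable_finsetSum _ (fun i _ => (integrable_shear (box s) (measurable_box s)
          (integrable_box s) (fun x => lin (gs n i) x - c1 i) (measurable_lin_sub _ _)).const_mul _)
      have eF : ∫ q, F q ∂mu = δ := by
        rw [hF]
        rw [integral_finsetSum _ (fun i _ => (integrable_shear (box s) (measurable_box s)
          (integrable_box s) (fun x => lin (gs n i) x - c1 i) (measurable_lin_sub _ _)).const_mul _)]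
        have e : ∀ i : Fin n × Fin n, ∫ q : (ℝ × ℝ) × ℝ, p0 / s * box s (q.2 + (lin (gs n i) q.1 - c1 i)) ∂mu
            = p0 := by
          intro i
          rw [integral_const_mul, integral_shear (box s) (measurable_box s) (integrable_box s)
            (fun x => lin (gs n i) x - c1 i) (measurable_lin_sub _ _), integral_box_univ s hs.le]
          field_simp
        simp only [e]
        rw [Finset.sum_const, Finset.card_univ, Fintype.card_prod, Fintype.card_fin, nsmul_eq_mul, hp0]
        push_cast
        field_simp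
      have mm : Measurable m := by
        rw [hm]
        apply Finset.measurable_sum
        intro i _
        exact measurable_shear (box p0) (measurable_box p0) (fun x => lin (gs n i) x - c1 i)
          (measurable_lin_sub _ _)
      have m0 : ∀ q, 0 ≤ m q := fun q => Finset.sum_nonneg (fun i _ => box_nonneg _ _)
      have m1 : ∀ q, m q ≤ (n : ℝ) ^ 2 := by
        intro q
        calc m q ≤ ∑ _i : Fin n × Fin n, (1 : ℝ) := Finset.sum_le_sum (fun i _ => box_le_one _ _)
          _ = (n : ℝ) ^ 2 := by
            rw [Finset.sum_const, Finset.card_univ, Fintype.card_prod, Fintype.card_fin, nsmul_eq_mul]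
            push_cast
            ring
      have oF : Osc (fun q => 1 - F q) (2 * δ / s) := by
        apply osc_one_sub
        have h1 := osc_sum Finset.univ
          (fun (i : Fin n × Fin n) (q : (ℝ × ℝ) × ℝ) => p0 / s * box s (q.2 + (lin (gs n i) q.1 - c1 i)))
          (p0 / s * 2) (fun i _ => osc_smul (p0 / s) (by positivity) (osc_box s (gs n i) (c1 i)))
        apply h1.mono
        rw [Finset.card_univ, Fintype.card_prod, Fintype.card_fin, hp0]
        push_cast
        apply le_of_eq
        field_simp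
      set U1 : (ℝ × ℝ) × ℝ → ℝ := unc (gs n) (fun _ => p0) c1 with hU1
      have U10 := unc_nonneg (gs n) (fun _ => p0) c1
      have U11 := unc_le_one (gs n) (fun _ => p0) c1
      have mU1 := measurable_unc (gs n) (fun _ => p0) c1
      rw [← hU1] at U10 U11 mU1
      have oU1 : Osc U1 (2 * (n : ℝ) ^ 2) := by
        have h1 := osc_prod Finset.univ
          (fun (i : Fin n × Fin n) (q : (ℝ × ℝ) × ℝ) => 1 - box p0 (q.2 + (lin (gs n i) q.1 - c1 i))) 2
          (fun i _ => osc_one_sub (osc_box p0 (gs n i) (c1 i)))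
          (fun i _ q => by
            rw [abs_of_nonneg (one_sub_box_mem _ _).1]; exact (one_sub_box_mem _ _).2)
        apply h1.mono
        rw [Finset.card_univ, Fintype.card_prod, Fintype.card_fin]
        push_cast
        apply le_of_eq
        ring
      have U1m : ∀ q, 1 - m q ≤ U1 q := by
        intro q
        exact one_sub_sum_le_prod Finset.univ _ (fun i _ => box_nonneg _ _) (fun i _ => box_le_one _ _)
      have eunc : ∀ q, unc (Sum.elim (gs n) a) (Sum.elim (fun _ => p0) p) c q = U1 q * unc a p c2 q := by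
        intro q
        rw [hU1]
        unfold unc
        rw [Fintype.prod_sum_type]
        rfl
      refine ⟨fun q => Q q * (1 - F q), fun q => S q + F q, mQ.mul (measurable_const.sub mF), ?_, ?_,
        ?_, iS.add iF, fun q => add_nonneg (S0 q) (F0 q), ?_, ?_, ?_⟩
      · intro q
        exact mul_nonneg (Q0 q) (by linarith [F1 q])
      · intro q
        have := mul_le_mul (Q1 q) (show 1 - F q ≤ 1 by linarith [F0 q]) (by linarith [F1 q]) zero_le_one
        simpa using this
      · intro q
        rw [mul_add, Real.exp_add]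
        exact mul_le_mul (QS q) (exp_bound (F q) (F0 q) (F1 q)) (Real.exp_pos _).le (Q0 q)
      · rw [integral_add iS iF, iSe, eF]
        push_cast
        ring
      · have h1 := osc_mul oQ oF (fun q => by rw [abs_of_nonneg (Q0 q)]; exact Q1 q)
          (fun q => by
            rw [abs_of_nonneg (by linarith [F1 q] : 0 ≤ 1 - F q)]; linarith [F0 q])
        apply h1.mono
        push_cast
        linarith
      · intro g hg og
        have tg1 : Tst (fun q => g q * U1 q) := hg.mul mU1 U10 U11
        have og1 : Osc (fun q => g q * U1 q) (L + 2 * (n : ℝ) ^ 2) :=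
          osc_mul og oU1 hg.abs_le (fun q => by rw [abs_of_nonneg (U10 q)]; exact U11 q)
        have tg2 : Tst (fun q => g q * Q q) := hg.mul mQ Q0 Q1
        have og2 : Osc (fun q => g q * Q q) (L + K * (2 * δ / s)) :=
          osc_mul og oQ hg.abs_le (fun q => by rw [abs_of_nonneg (Q0 q)]; exact Q1 q)
        have h1 := hmain _ tg1 og1
        have h2 := hstep c1 _ tg2 og2
        have I1 : Integrable (fun q => g q * Q q * m q) mu :=
          tg2.integrable_mul mm ((n : ℝ) ^ 2) (fun q => by rw [abs_of_nonneg (m0 q)]; exact m1 q)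
        have I2 : Integrable (fun q => g q * Q q * F q) mu :=
          tg2.integrable_mul mF (1 / 2) (fun q => by rw [abs_of_nonneg (F0 q)]; exact F1 q)
        have I3 : Integrable (fun q => g q * Q q) mu :=
          hg.integrable_mul mQ 1 (fun q => by rw [abs_of_nonneg (Q0 q)]; exact Q1 q)
        have I4 : Integrable (fun q => g q * Q q * U1 q) mu :=
          tg2.integrable_mul mU1 1 (fun q => by rw [abs_of_nonneg (U10 q)]; exact U11 q)
        have e1 : ∫ q, g q * (Q q * (1 - F q)) ∂mu = ∫ q, g q * Q q ∂mu - ∫ q, g q * Q q * F q ∂mu := by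
          rw [← integral_sub I3 I2]
          congr 1
          funext q
          ring
        have e2 : ∫ q, g q * Q q ∂mu - ∫ q, g q * Q q * m q ∂mu ≤ ∫ q, g q * Q q * U1 q ∂mu := by
          rw [← integral_sub I3 I1]
          apply integral_mono (I3.sub I1) I4
          intro q
          show g q * Q q - g q * Q q * m q ≤ g q * Q q * U1 q
          have := mul_le_mul_of_nonneg_left (U1m q) (tg2.nn q)
          linarith
        have e3 : ∫ q, g q * Q q * U1 q ∂mu = ∫ q, g q * U1 q * Q q ∂mu := by
          congr 1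
          funext q
          ring
        have e4 : ∫ q, g q * unc (Sum.elim (gs n) a) (Sum.elim (fun _ => p0) p) c q ∂mu =
            ∫ q, g q * U1 q * unc a p c2 q ∂mu := by
          congr 1
          funext q
          rw [eunc]
          ring
        rw [e1, e4]
        push_cast
        have h3 : ∫ q, g q * Q q * m q ∂mu ≤ ∫ q, g q * Q q * F q ∂mu + δ * (12 * rt s + ε) := h2
        have h4 : ((K : ℝ) + 1) * δ * (12 * rt s + ε) = K * δ * (12 * rt s + ε) + δ * (12 * rt s + ε) := by
          ring
        rw [h4]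
        linarith

end Pool.Agent.SlabCover
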