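import Pool.Agent.SlabCover.Family

set_option autoImplicit false

open MeasureTheory Set

namespace Pool.Agent.SlabCover

lemma ae_mem_square : ∀ᵐ q ∂mu, q.1 ∈ (Icc (0:ℝ) 1 ×ˢ Icc (0:ℝ) 1) := by
  have h1 : nu.prod nu = (volume.prod volume).restrict (Icc (0:ℝ) 1 ×ˢ Icc (0:ℝ) 1) := by
    unfold nu
    rw [Measure.prod_restrict]
  have h2 : ∀ᵐ x ∂(nu.prod nu), x ∈ (Icc (0:ℝ) 1 ×ˢ Icc (0:ℝ) 1) := by
    rw [h1]
    exact ae_restrict_mem (measurableSet_Icc.prod measurableSet_Icc)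
  unfold mu
  exact Measure.quasiMeasurePreserving_fst.ae h2

/-- For every `M > 0` there is a finite family of slabs of total width `M` (vertical width), with
slopes in `[0,1]²`, which cannot be translated so as to cover the unit cube. -/
theorem exists_uncovered (M : ℝ) (hM : 0 < M) :
    ∃ (ι : Type) (_ : Fintype ι) (a : ι → ℝ × ℝ) (p : ι → ℝ),
      (∀ i, 0 < p i) ∧ (∀ i, 0 ≤ (a i).1 ∧ (a i).1 ≤ 1 ∧ 0 ≤ (a i).2 ∧ (a i).2 ≤ 1) ∧
      ∑ i, p i = M ∧
      ∀ c : ι → ℝ, ∃ (x : ℝ × ℝ) (z : ℝ), (0 ≤ x.1 ∧ x.1 ≤ 1) ∧ (0 ≤ x.2 ∧ x.2 ≤ 1) ∧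
        (0 ≤ z ∧ z ≤ 1) ∧ ∀ i, ¬ (0 ≤ z + (lin (a i) x - c i) ∧ z + (lin (a i) x - c i) ≤ p i) := by
  set τ : ℝ := Real.exp (-2 * M) / (4 * M) with hτ
  have τ0 : 0 < τ := by positivity
  set s : ℝ := (τ / 12) ^ 4 with hs
  have s0 : 0 < s := by positivity
  have rs : rt s = τ / 12 := by
    rw [← pow_left_inj₀ (rt_nonneg s) (by positivity) (four_ne_zero), rt_pow s0.le]
  obtain ⟨K, hK⟩ := exists_nat_gt (2 * M / s)
  have hK0 : (0 : ℝ) < K := lt_trans (by positivity) hK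
  set δ : ℝ := M / K with hδ
  have δ0 : 0 < δ := by positivity
  have δs : δ ≤ s / 2 := by
    rw [hδ, div_le_iff₀ hK0]
    rw [div_lt_iff₀ s0] at hK
    nlinarith
  have hKδ : (K : ℝ) * δ = M := by rw [hδ]; field_simp
  obtain ⟨ι, fι, a, p, hp, ha, hsum, hfam⟩ := family s τ δ s0 τ0 δ0 δs K 2 (by norm_num)
  refine ⟨ι, fι, a, p, hp, ha, hsum.trans hKδ, ?_⟩
  intro c
  obtain ⟨Q, S, mQ, Q0, Q1, QS, iS, S0, iSe, -, hmain⟩ := hfam c
  rw [hKδ] at iSe hmain
  set g : (ℝ × ℝ) × ℝ → ℝ := fun q => box 1 q.2 with hg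
  have tg : Tst g := by
    refine ⟨(measurable_box 1).comp measurable_snd, fun q => box_nonneg _ _, fun q => box_le_one _ _, ?_⟩
    intro q hq
    show box 1 q.2 = 0
    unfold box
    rw [if_neg hq]
  have og : Osc g 2 := by
    have := osc_box 1 0 0
    have e : (fun q : (ℝ × ℝ) × ℝ => box 1 (q.2 + (lin 0 q.1 - 0))) = g := by
      funext q
      rw [hg]
      simp [lin]
    rw [e] at this
    exact this
  have h1 := hmain g tg og
  have mS1 : Integrable (fun q => g q * S q) mu := by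
    apply iS.bdd_mul (c := 1) tg.meas.aestronglyMeasurable
    exact Filter.Eventually.of_forall (fun q => by rw [Real.norm_eq_abs]; exact tg.abs_le q)
  have ig : Integrable g mu := integrable_box_snd 1
  have eg : ∫ q, g q ∂mu = 1 := integral_box_snd 1 zero_le_one
  have igQ : Integrable (fun q => g q * Q q) mu :=
    tg.integrable_mul mQ 1 (fun q => by rw [abs_of_nonneg (Q0 q)]; exact Q1 q)
  have hgS : ∫ q, g q * S q ∂mu ≤ M := by
    rw [← iSe]
    apply integral_mono mS1 iS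
    intro q
    show g q * S q ≤ S q
    have := mul_le_mul_of_nonneg_right (tg.le1 q) (S0 q)
    linarith
  have h2 : Real.exp (-2 * M) ≤ ∫ q, g q * Q q ∂mu := by
    have h3 : ∫ q, Real.exp (-2 * M) * ((1 + 2 * M) * g q - 2 * (g q * S q)) ∂mu ≤
        ∫ q, g q * Q q ∂mu := by
      apply integral_mono
        (((ig.const_mul (1 + 2 * M)).sub (mS1.const_mul 2)).const_mul (Real.exp (-2 * M))) igQ
      intro q
      show Real.exp (-2 * M) * ((1 + 2 * M) * g q - 2 * (g q * S q)) ≤ g q * Q q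
      have h4 : Real.exp (-2 * M) * (1 + 2 * M - 2 * S q) ≤ Real.exp (-2 * S q) := by
        have h5 := Real.add_one_le_exp (2 * M - 2 * S q)
        have h6 : Real.exp (-2 * S q) = Real.exp (-2 * M) * Real.exp (2 * M - 2 * S q) := by
          rw [← Real.exp_add]; congr 1; ring
        rw [h6]
        apply mul_le_mul_of_nonneg_left _ (Real.exp_pos _).le
        linarith
      have h7 := mul_le_mul_of_nonneg_left (h4.trans (QS q)) (tg.nn q)
      calc Real.exp (-2 * M) * ((1 + 2 * M) * g q - 2 * (g q * S q))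
          = g q * (Real.exp (-2 * M) * (1 + 2 * M - 2 * S q)) := by ring
        _ ≤ _ := h7
    rw [integral_const_mul, integral_sub (ig.const_mul _) (mS1.const_mul 2), integral_const_mul,
      integral_const_mul, eg] at h3
    have h8 : Real.exp (-2 * M) * 1 ≤ Real.exp (-2 * M) * ((1 + 2 * M) * 1 - 2 * ∫ q, g q * S q ∂mu) := by
      apply mul_le_mul_of_nonneg_left _ (Real.exp_pos _).le
      linarith
    linarith
  have h9 : M * (12 * rt s + τ) = Real.exp (-2 * M) / 2 := by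
    rw [rs, hτ]
    field_simp
    ring
  have hpos : 0 < ∫ q, g q * unc a p c q ∂mu := by
    have : 0 < Real.exp (-2 * M) := Real.exp_pos _
    linarith
  by_contra hcon
  push Not at hcon
  have hz : ∫ q, g q * unc a p c q ∂mu = 0 := by
    apply integral_eq_zero_of_ae
    filter_upwards [ae_mem_square] with q hq
    show g q * unc a p c q = 0
    by_cases hz : 0 ≤ q.2 ∧ q.2 ≤ 1
    · obtain ⟨i, hi⟩ := hcon q.1 q.2 hq.1 hq.2 hz
      have : unc a p c q = 0 := by
        unfold unc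
        apply Finset.prod_eq_zero (Finset.mem_univ i)
        have : box (p i) (q.2 + (lin (a i) q.1 - c i)) = 1 := by
          unfold box; rw [if_pos hi]
        rw [this, sub_self]
      rw [this, mul_zero]
    · rw [tg.supp q hz, zero_mul]
  linarith

/-- with some room around the uncovered point -/
theorem finite_family (M : ℝ) :
    ∃ (ι : Type) (_ : Fintype ι) (a : ι → ℝ × ℝ) (p : ι → ℝ) (ρ : ℝ),
      0 < ρ ∧ ρ ≤ 1 / 2 ∧
      (∀ i, 0 < p i) ∧ (∀ i, 0 ≤ (a i).1 ∧ (a i).1 ≤ 1 ∧ 0 ≤ (a i).2 ∧ (a i).2 ≤ 1) ∧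
      M ≤ ∑ i, p i ∧
      ∀ c : ι → ℝ, ∃ (x : ℝ × ℝ) (z : ℝ), (0 ≤ x.1 ∧ x.1 ≤ 1) ∧ (0 ≤ x.2 ∧ x.2 ≤ 1) ∧
        (0 ≤ z ∧ z ≤ 1) ∧
        ∀ i, ¬ (-(3 * ρ) ≤ z + (lin (a i) x - c i) ∧ z + (lin (a i) x - c i) ≤ p i + 3 * ρ) := by
  obtain ⟨ι, fι, a, p, hp, ha, hsum, hmain⟩ := exists_uncovered (2 * max M 1)
    (by have := le_max_right M 1; linarith)
  have hne : Nonempty ι := by
    by_contra h
    rw [not_nonempty_iff] at h
    rw [Finset.univ_eq_empty, Finset.sum_empty] at hsum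
    have := le_max_right M 1
    linarith
  obtain ⟨i0, -, hi0⟩ := Finset.exists_min_image Finset.univ p ⟨hne.some, Finset.mem_univ _⟩
  set ρ : ℝ := min (1 / 2) (p i0 / 12) with hρ
  have ρ0 : 0 < ρ := lt_min (by norm_num) (by have := hp i0; positivity)
  have ρp : ∀ i, 3 * ρ ≤ p i / 4 := by
    intro i
    have h1 : ρ ≤ p i0 / 12 := min_le_right _ _
    have h2 := hi0 i (Finset.mem_univ i)
    linarith
  refine ⟨ι, fι, a, fun i => p i / 2, ρ, ρ0, min_le_left _ _, fun i => by have := hp i; positivity, ha,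
    ?_, ?_⟩
  · rw [← Finset.sum_div, hsum]
    have := le_max_left M 1
    linarith
  · intro c
    obtain ⟨x, z, h1, h2, h3, h4⟩ := hmain (fun i => c i - p i / 4)
    refine ⟨x, z, h1, h2, h3, ?_⟩
    intro i hi
    apply h4 i
    have := ρp i
    have hi1 := hi.1
    have hi2 := hi.2
    have := hp i
    constructor <;> linarith

end Pool.Agent.SlabCover
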