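import Pool.Agent.SlabCover.Sums

set_option autoImplicit false

open MeasureTheory Set

namespace Pool.Agent.SlabCover

/-- Lebesgue measure on the column `[0,1]² × ℝ` -/
noncomputable def mu : Measure ((ℝ × ℝ) × ℝ) := (nu.prod nu).prod volume

/-- the linear form `a·x` -/
def lin (a x : ℝ × ℝ) : ℝ := a.1 * x.1 + a.2 * x.2

lemma measurable_lin (a : ℝ × ℝ) : Measurable (lin a) := by
  unfold lin
  fun_prop

lemma measurable_lin_sub (a : ℝ × ℝ) (c : ℝ) : Measurable (fun x => lin a x - c) :=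
  (measurable_lin a).sub_const c

lemma measurable_shear (φ : ℝ → ℝ) (hφm : Measurable φ) (l : ℝ × ℝ → ℝ) (hl : Measurable l) :
    Measurable (fun q : (ℝ × ℝ) × ℝ => φ (q.2 + l q.1)) := by
  apply hφm.comp
  exact measurable_snd.add (hl.comp measurable_fst)

lemma integrable_shear (φ : ℝ → ℝ) (hφm : Measurable φ) (hφ : Integrable φ volume)
    (l : ℝ × ℝ → ℝ) (hl : Measurable l) :
    Integrable (fun q : (ℝ × ℝ) × ℝ => φ (q.2 + l q.1)) mu := by
  unfold mu
  rw [integrable_prod_iff (measurable_shear φ hφm l hl).aestronglyMeasurable]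
  constructor
  · exact Filter.Eventually.of_forall (fun x => hφ.comp_add_right (l x))
  · have : (fun x : ℝ × ℝ => ∫ y, ‖φ (y + l x)‖) = fun _ => ∫ y, ‖φ y‖ := by
      funext x
      exact integral_add_right_eq_self (fun y => ‖φ y‖) (l x)
    simp only [this]
    exact integrable_const _

lemma integral_shear (φ : ℝ → ℝ) (hφm : Measurable φ) (hφ : Integrable φ volume)
    (l : ℝ × ℝ → ℝ) (hl : Measurable l) :
    ∫ q, φ (q.2 + l q.1) ∂mu = ∫ y, φ y := by
  have h := integrable_shear φ hφm hφ l hl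
  unfold mu at h ⊢
  rw [integral_prod _ h]
  have : ∀ x : ℝ × ℝ, ∫ y, φ (y + l x) = ∫ y, φ y := fun x => integral_add_right_eq_self φ (l x)
  simp only [this]
  simp

/-- correlation of two sheared kernels -/
lemma J_eq (φ : ℝ → ℝ) (hφm : Measurable φ) (hφ : Integrable φ volume) (C : ℝ)
    (hC : ∀ t, |φ t| ≤ C) (l1 l2 : ℝ × ℝ → ℝ) (hl1 : Measurable l1) (hl2 : Measurable l2) :
    ∫ q, φ (q.2 + l1 q.1) * φ (q.2 + l2 q.1) ∂mu =
      ∫ z, φ z * ∫ x, φ (z + (l2 x - l1 x)) ∂(nu.prod nu) := by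
  have i1 := integrable_shear φ hφm hφ l1 hl1
  have m2 := measurable_shear φ hφm l2 hl2
  have h1 : Integrable (fun q : (ℝ × ℝ) × ℝ => φ (q.2 + l1 q.1) * φ (q.2 + l2 q.1)) mu := by
    apply i1.mul_bdd (c := C) m2.aestronglyMeasurable
    exact Filter.Eventually.of_forall (fun q => by rw [Real.norm_eq_abs]; exact hC _)
  have m3 := measurable_shear φ hφm (fun x => l2 x - l1 x) (hl2.sub hl1)
  have i0 := integrable_shear φ hφm hφ (fun _ => 0) measurable_const
  have h2 : Integrable (fun q : (ℝ × ℝ) × ℝ => φ q.2 * φ (q.2 + (l2 q.1 - l1 q.1))) mu := by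
    simp only [add_zero] at i0
    apply i0.mul_bdd (c := C) m3.aestronglyMeasurable
    exact Filter.Eventually.of_forall (fun q => by rw [Real.norm_eq_abs]; exact hC _)
  unfold mu at h1 h2 ⊢
  rw [integral_prod _ h1]
  have e1 : ∀ x : ℝ × ℝ, ∫ z, φ (z + l1 x) * φ (z + l2 x) = ∫ z, φ z * φ (z + (l2 x - l1 x)) := by
    intro x
    rw [← integral_add_right_eq_self (fun z => φ z * φ (z + (l2 x - l1 x))) (l1 x)]
    congr 1
    funext z
    congr 2
    ring
  simp only [e1]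
  rw [integral_integral_swap (f := fun (x : ℝ × ℝ) (z : ℝ) => φ z * φ (z + (l2 x - l1 x))) h2]
  congr 1
  funext z
  rw [integral_const_mul]

lemma J_le (w s : ℝ) (hw : 0 < w) (hs : w ≤ s) (a b : ℝ × ℝ) (c d B : ℝ)
    (hB : ∀ β, |∫ x, kap w s (β + (b.1 - a.1) * x.1 + (b.2 - a.2) * x.2) ∂(nu.prod nu)| ≤ B) :
    |∫ q, kap w s (q.2 + (lin a q.1 - c)) * kap w s (q.2 + (lin b q.1 - d)) ∂mu| ≤ 2 * B := by
  have hs' : 0 < s := lt_of_lt_of_le hw hs
  rw [J_eq (kap w s) (measurable_kap w s) (integrable_kap w s) (1 / w)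
    (fun t => abs_kap_le w s t hw hs) (fun x => lin a x - c) (fun x => lin b x - d)
    (measurable_lin_sub a c) (measurable_lin_sub b d)]
  have hG : ∀ z, |∫ x, kap w s (z + ((lin b x - d) - (lin a x - c))) ∂(nu.prod nu)| ≤ B := by
    intro z
    have := hB (z + c - d)
    convert this using 3
    funext x
    congr 1
    unfold lin
    ring
  have hi : Integrable (fun z => |kap w s z| * B) volume := (integrable_kap w s).abs.mul_const B
  have h1 := norm_integral_le_of_norm_le (μ := volume)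
    (f := fun z => kap w s z * ∫ x, kap w s (z + ((lin b x - d) - (lin a x - c))) ∂(nu.prod nu)) hi
    (Filter.Eventually.of_forall (fun z => by
      rw [Real.norm_eq_abs, abs_mul]
      exact mul_le_mul_of_nonneg_left (hG z) (abs_nonneg _)))
  rw [Real.norm_eq_abs] at h1
  refine h1.trans ?_
  rw [integral_mul_const]
  have hB0 : 0 ≤ B := (abs_nonneg _).trans (hG 0)
  exact mul_le_mul_of_nonneg_right (integral_abs_kap_le w s hw hs') hB0

/-- grid slopes -/
noncomputable def gs (n : ℕ) (i : Fin n × Fin n) : ℝ × ℝ := ((i.1.1 : ℝ) / n, (i.2.1 : ℝ) / n)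

/-- bound for one pair -/
noncomputable def Bd (n : ℕ) (w s : ℝ) (i j : Fin n × Fin n) : ℝ :=
  rt s ^ 2 * rt (n : ℝ) ^ 6 * (fw (dn j.1.1 i.1.1) * fw (dn j.2.1 i.2.1))
    + 1 / w * (if j.1 = i.1 then 1 else 0) + 1 / w * (if j.2 = i.2 then 1 else 0)

lemma Bd_bound (n : ℕ) (hn : 0 < n) (w s : ℝ) (hw : 0 < w) (hs : w ≤ s) (i j : Fin n × Fin n) (β : ℝ) :
    |∫ x, kap w s (β + ((gs n j).1 - (gs n i).1) * x.1 + ((gs n j).2 - (gs n i).2) * x.2)
      ∂(nu.prod nu)| ≤ Bd n w s i j := by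
  have hn' : (0 : ℝ) < n := by exact_mod_cast hn
  have hw1 : 0 < 1 / w := by positivity
  have base : |∫ x, kap w s (β + ((gs n j).1 - (gs n i).1) * x.1 + ((gs n j).2 - (gs n i).2) * x.2)
      ∂(nu.prod nu)| ≤ 1 / w :=
    abs_integral_le_of_abs_le _ _ _ (fun x => abs_kap_le w s _ hw hs)
  have nn : 0 ≤ rt s ^ 2 * rt (n : ℝ) ^ 6 * (fw (dn j.1.1 i.1.1) * fw (dn j.2.1 i.2.1)) :=
    mul_nonneg (mul_nonneg (pow_nonneg (rt_nonneg _) _) (pow_nonneg (rt_nonneg _) _))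
      (mul_nonneg (fw_nonneg _) (fw_nonneg _))
  unfold Bd
  by_cases h1 : j.1 = i.1
  · rw [if_pos h1]
    have : 0 ≤ 1 / w * (if j.2 = i.2 then (1 : ℝ) else 0) := by split_ifs <;> simp [hw.le]
    linarith
  · by_cases h2 : j.2 = i.2
    · rw [if_pos h2, if_neg h1]
      linarith
    · rw [if_neg h1, if_neg h2]
      have d1 : dn j.1.1 i.1.1 ≠ 0 := fun h => h1 (Fin.ext (dn_eq_zero.1 h))
      have d2 : dn j.2.1 i.2.1 ≠ 0 := fun h => h2 (Fin.ext (dn_eq_zero.1 h))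
      have d1' : (0 : ℝ) < (dn j.1.1 i.1.1 : ℕ) := by exact_mod_cast Nat.pos_of_ne_zero d1
      have d2' : (0 : ℝ) < (dn j.2.1 i.2.1 : ℕ) := by exact_mod_cast Nat.pos_of_ne_zero d2
      have a1 : |(gs n j).1 - (gs n i).1| = (dn j.1.1 i.1.1 : ℕ) / (n : ℝ) := abs_diff n _ _
      have a2 : |(gs n j).2 - (gs n i).2| = (dn j.2.1 i.2.1 : ℕ) / (n : ℝ) := abs_diff n _ _
      have n1 : (gs n j).1 - (gs n i).1 ≠ 0 := by
        rw [← abs_pos, a1]; positivity
      have n2 : (gs n j).2 - (gs n i).2 ≠ 0 := by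
        rw [← abs_pos, a2]; positivity
      have := G_bound w s hw hs _ _ β n1 n2
      rw [a1, a2, rt_div' _ _ d1'.le, rt_div' _ _ d2'.le] at this
      have r0 : 0 < rt (n : ℝ) := rt_pos hn'
      have r1 : 0 < rt ((dn j.1.1 i.1.1 : ℕ) : ℝ) := rt_pos d1'
      have r2 : 0 < rt ((dn j.2.1 i.2.1 : ℕ) : ℝ) := rt_pos d2'
      have e : rt s ^ 2 / ((rt ((dn j.1.1 i.1.1 : ℕ) : ℝ) / rt (n : ℝ)) ^ 3 *
          (rt ((dn j.2.1 i.2.1 : ℕ) : ℝ) / rt (n : ℝ)) ^ 3) =
          rt s ^ 2 * rt (n : ℝ) ^ 6 * (fw (dn j.1.1 i.1.1) * fw (dn j.2.1 i.2.1)) := by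
        unfold fw
        rw [if_neg d1, if_neg d2]
        field_simp
      rw [e] at this
      simpa using this

lemma sum_Bd (n : ℕ) (hn : 0 < n) (w s : ℝ) (hw : 0 < w) (i : Fin n × Fin n) :
    ∑ j, Bd n w s i j ≤ 64 * rt s ^ 2 * (n : ℝ) ^ 2 + 2 * n / w := by
  have hn' : (0 : ℝ) < n := by exact_mod_cast hn
  unfold Bd
  rw [Finset.sum_add_distrib, Finset.sum_add_distrib]
  have h1 : ∑ j : Fin n × Fin n, rt s ^ 2 * rt (n : ℝ) ^ 6 * (fw (dn j.1.1 i.1.1) * fw (dn j.2.1 i.2.1))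
      ≤ 64 * rt s ^ 2 * (n : ℝ) ^ 2 := by
    rw [← Finset.mul_sum, Fintype.sum_prod_type]
    simp only
    rw [← Finset.sum_mul_sum]
    have b1 := sum_fw_fin n i.1
    have b2 := sum_fw_fin n i.2
    have c1 : 0 ≤ ∑ u : Fin n, fw (dn u.1 i.1.1) := Finset.sum_nonneg (fun _ _ => fw_nonneg _)
    have c2 : 0 ≤ ∑ u : Fin n, fw (dn u.1 i.2.1) := Finset.sum_nonneg (fun _ _ => fw_nonneg _)
    have r0 : 0 < rt (n : ℝ) := rt_pos hn'
    have b3 : (∑ u : Fin n, fw (dn u.1 i.1.1)) * (∑ u : Fin n, fw (dn u.1 i.2.1)) ≤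
        (8 * rt (n : ℝ)) * (8 * rt (n : ℝ)) := mul_le_mul b1 b2 c2 (by positivity)
    have rs : 0 ≤ rt s := rt_nonneg s
    calc rt s ^ 2 * rt (n : ℝ) ^ 6 * ((∑ u : Fin n, fw (dn u.1 i.1.1)) * (∑ u : Fin n, fw (dn u.1 i.2.1)))
        ≤ rt s ^ 2 * rt (n : ℝ) ^ 6 * ((8 * rt (n : ℝ)) * (8 * rt (n : ℝ))) :=
          mul_le_mul_of_nonneg_left b3 (by positivity)
      _ = 64 * rt s ^ 2 * (rt (n : ℝ) ^ 4) ^ 2 := by ring
      _ = 64 * rt s ^ 2 * (n : ℝ) ^ 2 := by rw [rt_pow hn'.le]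
  have h2 : ∑ j : Fin n × Fin n, 1 / w * (if j.1 = i.1 then (1 : ℝ) else 0) = n / w := by
    rw [← Finset.mul_sum, Fintype.sum_prod_type]
    have e : ∀ x : Fin n, ∑ _y : Fin n, (if x = i.1 then (1 : ℝ) else 0) =
        if x = i.1 then (n : ℝ) else 0 := by
      intro x
      split_ifs <;> simp
    simp only [e]
    simp
    field_simp
  have h3 : ∑ j : Fin n × Fin n, 1 / w * (if j.2 = i.2 then (1 : ℝ) else 0) = n / w := by
    rw [← Finset.mul_sum, Fintype.sum_prod_type]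
    simp
    field_simp
  rw [h2, h3]
  have : (n : ℝ) / w + n / w = 2 * n / w := by ring
  linarith

/-- the `L²` estimate for one grid group -/
lemma L2_bound (n : ℕ) (hn : 0 < n) (w s δ : ℝ) (hw : 0 < w) (hs : w ≤ s)
    (c : Fin n × Fin n → ℝ) :
    ∫ q, (∑ i, δ / (n : ℝ) ^ 2 * kap w s (q.2 + (lin (gs n i) q.1 - c i))) ^ 2 ∂mu ≤
      δ ^ 2 * (128 * rt s ^ 2 + 4 / (n * w)) := by
  have hn' : (0 : ℝ) < n := by exact_mod_cast hn
  set p := δ / (n : ℝ) ^ 2 with hp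
  have hI : ∀ i j : Fin n × Fin n, Integrable (fun q : (ℝ × ℝ) × ℝ =>
      (p * kap w s (q.2 + (lin (gs n i) q.1 - c i))) *
        (p * kap w s (q.2 + (lin (gs n j) q.1 - c j)))) mu := by
    intro i j
    have i1 := (integrable_shear (kap w s) (measurable_kap w s) (integrable_kap w s)
      (fun x => lin (gs n i) x - c i) (measurable_lin_sub _ _)).const_mul p
    have m2 := (measurable_shear (kap w s) (measurable_kap w s)
      (fun x => lin (gs n j) x - c j) (measurable_lin_sub _ _)).const_mul p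
    apply i1.mul_bdd (c := |p| * (1 / w)) m2.aestronglyMeasurable
    exact Filter.Eventually.of_forall (fun q => by
      rw [Real.norm_eq_abs, abs_mul]
      exact mul_le_mul_of_nonneg_left (abs_kap_le w s _ hw hs) (abs_nonneg _))
  have e1 : ∀ q : (ℝ × ℝ) × ℝ, (∑ i, p * kap w s (q.2 + (lin (gs n i) q.1 - c i))) ^ 2 =
      ∑ i, ∑ j, (p * kap w s (q.2 + (lin (gs n i) q.1 - c i))) *
        (p * kap w s (q.2 + (lin (gs n j) q.1 - c j))) := by
    intro q
    rw [sq, Finset.sum_mul_sum]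
  simp only [e1]
  rw [integral_finsetSum _ (fun i _ => integrable_finsetSum _ (fun j _ => hI i j))]
  have e2 : ∀ i : Fin n × Fin n, ∫ q, ∑ j, (p * kap w s (q.2 + (lin (gs n i) q.1 - c i))) *
        (p * kap w s (q.2 + (lin (gs n j) q.1 - c j))) ∂mu ≤
        p ^ 2 * (2 * (64 * rt s ^ 2 * (n : ℝ) ^ 2 + 2 * n / w)) := by
    intro i
    rw [integral_finsetSum _ (fun j _ => hI i j)]
    have e3 : ∀ j : Fin n × Fin n, ∫ q, (p * kap w s (q.2 + (lin (gs n i) q.1 - c i))) *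
        (p * kap w s (q.2 + (lin (gs n j) q.1 - c j))) ∂mu ≤ p ^ 2 * (2 * Bd n w s i j) := by
      intro j
      have := J_le w s hw hs (gs n i) (gs n j) (c i) (c j) (Bd n w s i j)
        (fun β => Bd_bound n hn w s hw hs i j β)
      have e4 : ∀ q : (ℝ × ℝ) × ℝ, (p * kap w s (q.2 + (lin (gs n i) q.1 - c i))) *
        (p * kap w s (q.2 + (lin (gs n j) q.1 - c j))) = p ^ 2 *
          (kap w s (q.2 + (lin (gs n i) q.1 - c i)) * kap w s (q.2 + (lin (gs n j) q.1 - c j))) := by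
        intro q; ring
      simp only [e4]
      rw [integral_const_mul]
      exact mul_le_mul_of_nonneg_left ((le_abs_self _).trans this) (sq_nonneg p)
    calc _ ≤ ∑ j, p ^ 2 * (2 * Bd n w s i j) := Finset.sum_le_sum (fun j _ => e3 j)
      _ = p ^ 2 * (2 * ∑ j, Bd n w s i j) := by rw [Finset.mul_sum, Finset.mul_sum]
      _ ≤ _ := by
        apply mul_le_mul_of_nonneg_left _ (sq_nonneg p)
        apply mul_le_mul_of_nonneg_left (sum_Bd n hn w s hw i) (by norm_num)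
  calc _ ≤ ∑ _i : Fin n × Fin n, p ^ 2 * (2 * (64 * rt s ^ 2 * (n : ℝ) ^ 2 + 2 * n / w)) :=
        Finset.sum_le_sum (fun i _ => e2 i)
    _ = (n : ℝ) ^ 2 * (p ^ 2 * (2 * (64 * rt s ^ 2 * (n : ℝ) ^ 2 + 2 * n / w))) := by
        rw [Finset.sum_const, Finset.card_univ, Fintype.card_prod, Fintype.card_fin, nsmul_eq_mul]
        push_cast
        ring
    _ = δ ^ 2 * (128 * rt s ^ 2 + 4 / (n * w)) := by
        rw [hp]
        field_simp
        ring

end Pool.Agent.SlabCover
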