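import Pool.Agent.SlabCover.Meas

set_option autoImplicit false

open MeasureTheory Set

namespace Pool.Agent.SlabCover

/-- test functions supported on the cube (in the vertical direction) -/
structure Tst (g : (ℝ × ℝ) × ℝ → ℝ) : Prop where
  meas : Measurable g
  nn : ∀ q, 0 ≤ g q
  le1 : ∀ q, g q ≤ 1
  supp : ∀ q, ¬ (0 ≤ q.2 ∧ q.2 ≤ 1) → g q = 0

lemma Tst.le_box {g : (ℝ × ℝ) × ℝ → ℝ} (hg : Tst g) (q : (ℝ × ℝ) × ℝ) : g q ≤ box 1 q.2 := by
  unfold box
  split_ifs with h
  · exact hg.le1 q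
  · exact (hg.supp q h).le

lemma Tst.abs_le {g : (ℝ × ℝ) × ℝ → ℝ} (hg : Tst g) (q : (ℝ × ℝ) × ℝ) : |g q| ≤ 1 := by
  rw [abs_of_nonneg (hg.nn q)]; exact hg.le1 q

lemma integrable_box_snd (w : ℝ) : Integrable (fun q : (ℝ × ℝ) × ℝ => box w q.2) mu := by
  have := integrable_shear (box w) (measurable_box w) (integrable_box w) (fun _ => 0) measurable_const
  simpa using this

lemma integral_box_snd (w : ℝ) (hw : 0 ≤ w) : ∫ q : (ℝ × ℝ) × ℝ, box w q.2 ∂mu = w := by
  have := integral_shear (box w) (measurable_box w) (integrable_box w) (fun _ => 0) measurable_const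
  rw [integral_box_univ w hw] at this
  simpa using this

lemma stepB {g D : (ℝ × ℝ) × ℝ → ℝ} (hg : Tst g) (E : ℝ) (hE : 0 < E)
    (hD : Integrable (fun q => D q ^ 2) mu) (hD2 : ∫ q, D q ^ 2 ∂mu ≤ E ^ 2) :
    |∫ q, g q * D q ∂mu| ≤ E := by
  have hi : Integrable (fun q : (ℝ × ℝ) × ℝ => E / 2 * box 1 q.2 + 1 / (2 * E) * D q ^ 2) mu :=
    ((integrable_box_snd 1).const_mul _).add (hD.const_mul _)
  have h := norm_integral_le_of_norm_le (μ := mu) (f := fun q => g q * D q) hi
    (Filter.Eventually.of_forall (fun q => by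
      rw [Real.norm_eq_abs, abs_mul, abs_of_nonneg (hg.nn q)]
      have h1 := hg.le_box q
      have h2 := hg.nn q
      have h3 := hg.le1 q
      have h4 : g q ^ 2 ≤ box 1 q.2 := by nlinarith
      have h5 : 0 ≤ (E * g q - |D q|) ^ 2 := sq_nonneg _
      have h6 : |D q| ^ 2 = D q ^ 2 := sq_abs _
      have h7 : 2 * E * (g q * |D q|) ≤ E ^ 2 * g q ^ 2 + D q ^ 2 := by nlinarith
      have h8 : g q * |D q| ≤ (E ^ 2 * g q ^ 2 + D q ^ 2) / (2 * E) := by
        rw [le_div_iff₀ (by positivity)]; linarith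
      refine h8.trans ?_
      have e : (E ^ 2 * g q ^ 2 + D q ^ 2) / (2 * E) = E / 2 * g q ^ 2 + 1 / (2 * E) * D q ^ 2 := by
        field_simp
      rw [e]
      have : E / 2 * g q ^ 2 ≤ E / 2 * box 1 q.2 := mul_le_mul_of_nonneg_left h4 (by positivity)
      linarith))
  rw [Real.norm_eq_abs] at h
  refine h.trans ?_
  rw [integral_add ((integrable_box_snd 1).const_mul _) (hD.const_mul _), integral_const_mul,
    integral_const_mul, integral_box_snd 1 zero_le_one]
  have : 1 / (2 * E) * ∫ q, D q ^ 2 ∂mu ≤ 1 / (2 * E) * E ^ 2 :=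
    mul_le_mul_of_nonneg_left hD2 (by positivity)
  have e : 1 / (2 * E) * E ^ 2 = E / 2 := by field_simp
  linarith

/-- vertical oscillation controlled by finitely many planes of total weight `≤ L` -/
def Osc (g : (ℝ × ℝ) × ℝ → ℝ) (L : ℝ) : Prop :=
  ∃ (κ : Type) (_ : Fintype κ) (r : κ → ℝ) (a : κ → ℝ × ℝ) (c : κ → ℝ),
    (∀ j, 0 ≤ r j) ∧ (∑ j, r j ≤ L) ∧
    ∀ (x : ℝ × ℝ) (t w z z' : ℝ), z ∈ Icc (-t) (-t + w) → z' ∈ Icc (-t) (-t + w) →
      |g (x, z) - g (x, z')| ≤ ∑ j, r j * box w (t - (lin (a j) x - c j))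

lemma stepA_one {g : (ℝ × ℝ) × ℝ → ℝ} (hg : Tst g) {κ : Type} [Fintype κ] (r : κ → ℝ)
    (a : κ → ℝ × ℝ) (c : κ → ℝ) (hr : ∀ j, 0 ≤ r j)
    (ho : ∀ (x : ℝ × ℝ) (t w z z' : ℝ), z ∈ Icc (-t) (-t + w) → z' ∈ Icc (-t) (-t + w) →
      |g (x, z) - g (x, z')| ≤ ∑ j, r j * box w (t - (lin (a j) x - c j)))
    (p w : ℝ) (hp : 0 < p) (hpw : p ≤ w) (b : ℝ × ℝ) (d : ℝ) :
    |∫ q, g q * (box p (q.2 + (lin b q.1 - d)) - p / w * box w (q.2 + (lin b q.1 - d))) ∂mu| ≤
      2 * p * ∑ j, r j * ∫ x, box w ((lin b x - d) - (lin (a j) x - c j)) ∂(nu.prod nu) := by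
  have hw : 0 < w := lt_of_lt_of_le hp hpw
  set ψ : ℝ → ℝ := fun y => box p y - p / w * box w y with hψ
  have mψ : Measurable ψ := (measurable_box p).sub ((measurable_box w).const_mul _)
  have iψ : Integrable ψ volume := (integrable_box p).sub ((integrable_box w).const_mul _)
  have zψ : ∫ y, ψ y = 0 := by
    rw [hψ, integral_sub (integrable_box p) ((integrable_box w).const_mul _), integral_const_mul,
      integral_box_univ p hp.le, integral_box_univ w hw.le]
    field_simp
    ring
  have mℓ := measurable_lin_sub b d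
  have hi : Integrable (fun q : (ℝ × ℝ) × ℝ => g q * ψ (q.2 + (lin b q.1 - d))) mu := by
    apply (integrable_shear ψ mψ iψ (fun x => lin b x - d) mℓ).bdd_mul (c := 1)
      hg.meas.aestronglyMeasurable
    exact Filter.Eventually.of_forall (fun q => by rw [Real.norm_eq_abs]; exact hg.abs_le q)
  have hi' := hi
  unfold mu at hi
  show |∫ q, g q * ψ (q.2 + (lin b q.1 - d)) ∂mu| ≤ _
  unfold mu
  rw [integral_prod _ hi]
  -- the bounding function
  have hO : ∀ j, Integrable (fun x : ℝ × ℝ => box w ((lin b x - d) - (lin (a j) x - c j)))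
      (nu.prod nu) := by
    intro j
    apply integrable_of_bdd _ _ _ 1 (fun x => abs_box_le _ _)
    exact (measurable_box w).comp ((measurable_lin_sub b d).sub (measurable_lin_sub (a j) (c j)))
  have hOi : Integrable (fun x : ℝ × ℝ =>
      2 * p * ∑ j, r j * box w ((lin b x - d) - (lin (a j) x - c j))) (nu.prod nu) :=
    (integrable_finsetSum _ (fun j _ => (hO j).const_mul (r j))).const_mul _
  have h := norm_integral_le_of_norm_le (μ := nu.prod nu)
    (f := fun x => ∫ z, g (x, z) * ψ (z + (lin b x - d))) hOi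
    (Filter.Eventually.of_forall (fun x => by
      set t := lin b x - d with ht
      set O := ∑ j, r j * box w (t - (lin (a j) x - c j)) with hOdef
      have iψt : Integrable (fun z => ψ (z + t)) volume := iψ.comp_add_right t
      have mgx : Measurable (fun z => g (x, z)) := hg.meas.comp measurable_prodMk_left
      have ig : Integrable (fun z => g (x, z) * ψ (z + t)) volume := by
        apply iψt.bdd_mul (c := 1) mgx.aestronglyMeasurable
        exact Filter.Eventually.of_forall (fun z => by rw [Real.norm_eq_abs]; exact hg.abs_le _)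
      have e1 : ∫ z, g (x, z) * ψ (z + t) = ∫ z, (g (x, z) - g (x, -t)) * ψ (z + t) := by
        have e2 : ∀ z, (g (x, z) - g (x, -t)) * ψ (z + t) =
          g (x, z) * ψ (z + t) - g (x, -t) * ψ (z + t) := fun z => by ring
        simp only [e2]
        rw [integral_sub ig (iψt.const_mul _), integral_const_mul,
          integral_add_right_eq_self ψ t, zψ]
        ring
      rw [e1]
      have hib : Integrable (fun z => O * (box p (z + t) + p / w * box w (z + t))) volume :=
        (((integrable_box p).comp_add_right t).add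
          (((integrable_box w).comp_add_right t).const_mul _)).const_mul _
      have h3 := norm_integral_le_of_norm_le (μ := volume)
        (f := fun z => (g (x, z) - g (x, -t)) * ψ (z + t)) hib
        (Filter.Eventually.of_forall (fun z => by
          rw [Real.norm_eq_abs, abs_mul]
          have nb1 := box_nonneg p (z + t)
          have nb2 := box_nonneg w (z + t)
          have npw : 0 ≤ p / w := by positivity
          have npb : 0 ≤ p / w * box w (z + t) := mul_nonneg npw nb2
          by_cases hz : 0 ≤ z + t ∧ z + t ≤ w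
          · have o1 := ho x t w z (-t) ⟨by linarith [hz.1], by linarith [hz.2]⟩
              ⟨le_refl _, by linarith⟩
            have o2 : |ψ (z + t)| ≤ box p (z + t) + p / w * box w (z + t) := by
              rw [hψ, abs_le]
              constructor <;> simp only <;> linarith
            exact mul_le_mul o1 o2 (abs_nonneg _) ((abs_nonneg _).trans o1)
          · have b1 : box w (z + t) = 0 := by unfold box; rw [if_neg hz]
            have b2 : box p (z + t) = 0 := by
              unfold box; rw [if_neg]; intro h; exact hz ⟨h.1, h.2.trans hpw⟩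
            rw [hψ]
            simp only [b1, b2]
            simp))
      refine h3.trans ?_
      rw [integral_const_mul, integral_add ((integrable_box p).comp_add_right t)
        (((integrable_box w).comp_add_right t).const_mul _), integral_const_mul,
        integral_add_right_eq_self (box p) t, integral_add_right_eq_self (box w) t,
        integral_box_univ p hp.le, integral_box_univ w hw.le]
      have : p + p / w * w = 2 * p := by field_simp; ring
      rw [this]
      linarith))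
  rw [Real.norm_eq_abs] at h
  refine h.trans ?_
  rw [integral_const_mul, integral_finsetSum _ (fun j _ => (hO j).const_mul (r j))]
  simp only [integral_const_mul]
  exact le_refl _

lemma box2_le (w : ℝ) (hw : 0 ≤ w) (α₁ α₂ β : ℝ) (h1 : α₁ ≠ 0) :
    ∫ x, box w (β + α₁ * x.1 + α₂ * x.2) ∂(nu.prod nu) ≤ w / |α₁| := by
  have hi : Integrable (fun x : ℝ × ℝ => box w (β + α₁ * x.1 + α₂ * x.2)) (nu.prod nu) := by
    apply integrable_of_bdd _ _ _ 1 (fun x => abs_box_le _ _)
    apply (measurable_box w).comp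
    fun_prop
  rw [integral_prod_symm _ hi]
  have h2 : |∫ y, ∫ x, box w (β + α₁ * x + α₂ * y) ∂nu ∂nu| ≤ w / |α₁| := by
    apply abs_integral_le_of_abs_le
    intro y
    rw [abs_of_nonneg (integral_nonneg (fun x => box_nonneg _ _))]
    have := nu_box_le w hw α₁ (β + α₂ * y) h1
    convert this using 4
    ring
  exact (le_abs_self _).trans h2

lemma sum_box2 (n : ℕ) (hn : 0 < n) (η : ℝ) (hη : 0 < η) (c : Fin n × Fin n → ℝ) (b : ℝ × ℝ)
    (d : ℝ) :
    ∑ i, ∫ x, box (η ^ 2) ((lin (gs n i) x - c i) - (lin b x - d)) ∂(nu.prod nu) ≤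
      n * (3 * η * n + 1) := by
  have e : ∀ (i : Fin n × Fin n) (x : ℝ × ℝ), (lin (gs n i) x - c i) - (lin b x - d) =
      (d - c i) + ((gs n i).1 - b.1) * x.1 + ((gs n i).2 - b.2) * x.2 := by
    intro i x; unfold lin; ring
  simp only [e]
  rw [Fintype.sum_prod_type, Finset.sum_comm]
  have h : ∀ v : Fin n, ∑ u : Fin n, ∫ x : ℝ × ℝ, box (η ^ 2) ((d - c (u, v)) +
      ((gs n (u, v)).1 - b.1) * x.1 + ((gs n (u, v)).2 - b.2) * x.2) ∂(nu.prod nu) ≤
      3 * η * n + 1 := by
    intro v
    apply count_bound n hn b.1 η hη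
    · intro u
      refine (le_abs_self _).trans ?_
      exact abs_integral_le_of_abs_le _ _ _ (fun x => abs_box_le _ _)
    · intro u hu
      exact box2_le (η ^ 2) (sq_nonneg η) _ _ _ hu
  calc _ ≤ ∑ _v : Fin n, (3 * η * n + 1) := Finset.sum_le_sum (fun v _ => h v)
    _ = n * (3 * η * n + 1) := by
      rw [Finset.sum_const, Finset.card_univ, Fintype.card_fin, nsmul_eq_mul]

lemma stepA {g : (ℝ × ℝ) × ℝ → ℝ} (hg : Tst g) (L : ℝ) (ho : Osc g L) (n : ℕ) (hn : 0 < n)
    (η p : ℝ) (hη : 0 < η) (hp : 0 < p) (hpw : p ≤ η ^ 2) (c : Fin n × Fin n → ℝ) :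
    |∫ q, g q * ∑ i, (box p (q.2 + (lin (gs n i) q.1 - c i)) -
      p / η ^ 2 * box (η ^ 2) (q.2 + (lin (gs n i) q.1 - c i))) ∂mu| ≤
      2 * p * L * (n * (3 * η * n + 1)) := by
  obtain ⟨κ, _, r, a, e, hr, hL, hosc⟩ := ho
  have hn' : (0 : ℝ) < n := by exact_mod_cast hn
  set w := η ^ 2 with hw
  have hw0 : 0 < w := by rw [hw]; positivity
  set ψ : ℝ → ℝ := fun y => box p y - p / w * box w y with hψ
  have mψ : Measurable ψ := (measurable_box p).sub ((measurable_box w).const_mul _)
  have iψ : Integrable ψ volume := (integrable_box p).sub ((integrable_box w).const_mul _)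
  have hi : ∀ i, Integrable (fun q : (ℝ × ℝ) × ℝ => g q * ψ (q.2 + (lin (gs n i) q.1 - c i))) mu := by
    intro i
    apply (integrable_shear ψ mψ iψ (fun x => lin (gs n i) x - c i) (measurable_lin_sub _ _)).bdd_mul
      (c := 1) hg.meas.aestronglyMeasurable
    exact Filter.Eventually.of_forall (fun q => by rw [Real.norm_eq_abs]; exact hg.abs_le q)
  have e1 : ∀ q : (ℝ × ℝ) × ℝ, g q * ∑ i, (box p (q.2 + (lin (gs n i) q.1 - c i)) -
      p / w * box w (q.2 + (lin (gs n i) q.1 - c i))) =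
      ∑ i, g q * ψ (q.2 + (lin (gs n i) q.1 - c i)) := by
    intro q
    rw [Finset.mul_sum]
  simp only [e1]
  rw [integral_finsetSum _ (fun i _ => hi i)]
  calc |∑ i, ∫ q, g q * ψ (q.2 + (lin (gs n i) q.1 - c i)) ∂mu|
      ≤ ∑ i, |∫ q, g q * ψ (q.2 + (lin (gs n i) q.1 - c i)) ∂mu| := Finset.abs_sum_le_sum_abs _ _
    _ ≤ ∑ i, 2 * p * ∑ j, r j * ∫ x, box w ((lin (gs n i) x - c i) - (lin (a j) x - e j))
          ∂(nu.prod nu) :=
        Finset.sum_le_sum (fun i _ => stepA_one hg r a e hr hosc p w hp hpw (gs n i) (c i))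
    _ = 2 * p * ∑ j, r j * ∑ i, ∫ x, box w ((lin (gs n i) x - c i) - (lin (a j) x - e j))
          ∂(nu.prod nu) := by
        rw [← Finset.mul_sum, Finset.sum_comm]
        congr 1
        apply Finset.sum_congr rfl
        intro j _
        rw [Finset.mul_sum]
    _ ≤ 2 * p * ∑ j, r j * (n * (3 * η * n + 1)) := by
        apply mul_le_mul_of_nonneg_left _ (by positivity)
        apply Finset.sum_le_sum
        intro j _
        apply mul_le_mul_of_nonneg_left _ (hr j)
        exact sum_box2 n hn η hη c (a j) (e j)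
    _ = 2 * p * ((∑ j, r j) * (n * (3 * η * n + 1))) := by rw [Finset.sum_mul]
    _ ≤ 2 * p * (L * (n * (3 * η * n + 1))) := by
        apply mul_le_mul_of_nonneg_left _ (by positivity)
        apply mul_le_mul_of_nonneg_right hL (by positivity)
    _ = 2 * p * L * (n * (3 * η * n + 1)) := by ring

/-- the one-step lemma -/
theorem step (s ε δ L : ℝ) (hs : 0 < s) (hε : 0 < ε) (hδ : 0 < δ) (hL : 0 ≤ L) :
    ∃ n : ℕ, 0 < n ∧ ∀ (c : Fin n × Fin n → ℝ) (g : (ℝ × ℝ) × ℝ → ℝ), Tst g → Osc g L →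
      ∫ q, g q * ∑ i, box (δ / (n : ℝ) ^ 2) (q.2 + (lin (gs n i) q.1 - c i)) ∂mu ≤
      ∫ q, g q * ∑ i, δ / (n : ℝ) ^ 2 / s * box s (q.2 + (lin (gs n i) q.1 - c i)) ∂mu +
        δ * (12 * rt s + ε) := by
  set η := min (rt s ^ 2) (ε / (18 * (L + 1))) with hη
  have rs : 0 < rt s := rt_pos hs
  have hη0 : 0 < η := lt_min (by positivity) (by positivity)
  have hηs : η ^ 2 ≤ s := by
    calc η ^ 2 ≤ (rt s ^ 2) ^ 2 := by
          apply pow_le_pow_left₀ hη0.le (min_le_left _ _)
      _ = rt s ^ 4 := by ring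
      _ = s := rt_pow hs.le
  have hηL : 6 * L * η ≤ ε / 3 := by
    have h1 : η ≤ ε / (18 * (L + 1)) := min_le_right _ _
    rw [le_div_iff₀ (by positivity)] at h1
    nlinarith
  obtain ⟨n, hn⟩ := exists_nat_gt (1 + 6 * L / ε + δ / η ^ 2 + 36 / (η ^ 2 * ε ^ 2))
  have p1 : 0 ≤ 6 * L / ε := by positivity
  have p2 : 0 ≤ δ / η ^ 2 := by positivity
  have p3 : 0 ≤ 36 / (η ^ 2 * ε ^ 2) := by positivity
  have n1 : (1 : ℝ) ≤ n := by linarith
  have hn0 : (0 : ℝ) < n := by linarith
  have hnpos : 0 < n := by exact_mod_cast hn0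
  refine ⟨n, hnpos, ?_⟩
  intro c g hg ho
  set p := δ / (n : ℝ) ^ 2 with hp
  have hp0 : 0 < p := by rw [hp]; positivity
  have hpw : p ≤ η ^ 2 := by
    rw [hp, div_le_iff₀ (by positivity)]
    have h2 : δ / η ^ 2 ≤ n := by linarith
    rw [div_le_iff₀ (by positivity)] at h2
    have h3 : (n : ℝ) * η ^ 2 ≤ η ^ 2 * (n : ℝ) ^ 2 := by nlinarith [sq_nonneg η, mul_nonneg (sq_nonneg η) hn0.le]
    linarith
  have hA := stepA hg L ho n hnpos η p hη0 hp0 hpw c
  set w := η ^ 2 with hw
  have hw0 : 0 < w := by rw [hw]; positivity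
  -- step B
  set D : (ℝ × ℝ) × ℝ → ℝ := fun q => ∑ i, p * kap w s (q.2 + (lin (gs n i) q.1 - c i)) with hD
  have hL2 := L2_bound n hnpos w s δ hw0 hηs c
  have mD : Measurable D := by
    rw [hD]
    apply Finset.measurable_sum
    intro i _
    exact (measurable_shear (kap w s) (measurable_kap w s) (fun x => lin (gs n i) x - c i)
      (measurable_lin_sub _ _)).const_mul p
  have iD : Integrable D mu := by
    rw [hD]
    exact integrable_finsetSum _ (fun i _ => (integrable_shear (kap w s) (measurable_kap w s)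
      (integrable_kap w s) (fun x => lin (gs n i) x - c i) (measurable_lin_sub _ _)).const_mul p)
  have bD : ∀ q, |D q| ≤ ∑ _i : Fin n × Fin n, p * (1 / w) := by
    intro q
    rw [hD]
    refine (Finset.abs_sum_le_sum_abs _ _).trans ?_
    apply Finset.sum_le_sum
    intro i _
    rw [abs_mul, abs_of_pos hp0]
    exact mul_le_mul_of_nonneg_left (abs_kap_le w s _ hw0 hηs) hp0.le
  have iD2 : Integrable (fun q => D q ^ 2) mu := by
    have e : (fun q => D q ^ 2) = fun q => D q * D q := by funext q; ring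
    rw [e]
    apply iD.mul_bdd (c := ∑ _i : Fin n × Fin n, p * (1 / w)) mD.aestronglyMeasurable
    exact Filter.Eventually.of_forall (fun q => by rw [Real.norm_eq_abs]; exact bD q)
  have hE : ∫ q, D q ^ 2 ∂mu ≤ (δ * (12 * rt s + ε / 3)) ^ 2 := by
    refine hL2.trans ?_
    rw [mul_pow]
    apply mul_le_mul_of_nonneg_left _ (sq_nonneg δ)
    have h4 : 4 / (n * w) ≤ ε ^ 2 / 9 := by
      have h2 : 36 / (w * ε ^ 2) ≤ n := by linarith
      rw [div_le_iff₀ (by positivity)] at h2
      rw [div_le_iff₀ (by positivity)]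
      nlinarith
    nlinarith [sq_nonneg (rt s), mul_pos rs hε]
  have hB := stepB hg (δ * (12 * rt s + ε / 3)) (by positivity) iD2 hE
  -- combine
  have ig : ∀ (F : (ℝ × ℝ) × ℝ → ℝ), Integrable F mu → Integrable (fun q => g q * F q) mu := by
    intro F hF
    apply hF.bdd_mul (c := 1) hg.meas.aestronglyMeasurable
    exact Filter.Eventually.of_forall (fun q => by rw [Real.norm_eq_abs]; exact hg.abs_le q)
  have ib : ∀ (v : ℝ) (i : Fin n × Fin n), Integrable (fun q : (ℝ × ℝ) × ℝ =>
      box v (q.2 + (lin (gs n i) q.1 - c i))) mu := fun v i =>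
    integrable_shear (box v) (measurable_box v) (integrable_box v) (fun x => lin (gs n i) x - c i)
      (measurable_lin_sub _ _)
  have i1 : Integrable (fun q : (ℝ × ℝ) × ℝ => ∑ i, (box p (q.2 + (lin (gs n i) q.1 - c i)) -
      p / w * box w (q.2 + (lin (gs n i) q.1 - c i)))) mu :=
    integrable_finsetSum _ (fun i _ => (ib p i).sub ((ib w i).const_mul _))
  have i2 : Integrable (fun q : (ℝ × ℝ) × ℝ => ∑ i, p / s *
      box s (q.2 + (lin (gs n i) q.1 - c i))) mu :=
    integrable_finsetSum _ (fun i _ => (ib s i).const_mul _)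
  have key : ∀ q : (ℝ × ℝ) × ℝ, g q * ∑ i, box p (q.2 + (lin (gs n i) q.1 - c i)) =
      g q * ∑ i, p / s * box s (q.2 + (lin (gs n i) q.1 - c i)) +
      (g q * ∑ i, (box p (q.2 + (lin (gs n i) q.1 - c i)) -
      p / w * box w (q.2 + (lin (gs n i) q.1 - c i))) + g q * D q) := by
    intro q
    rw [hD]
    simp only
    rw [← mul_add, ← mul_add, ← Finset.sum_add_distrib, ← Finset.sum_add_distrib]
    congr 1
    apply Finset.sum_congr rfl
    intro i _
    unfold kap
    ring
  simp only [key]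
  have i3 : Integrable (fun q : (ℝ × ℝ) × ℝ => g q * ∑ i, (box p (q.2 + (lin (gs n i) q.1 - c i)) -
      p / w * box w (q.2 + (lin (gs n i) q.1 - c i))) + g q * D q) mu := (ig _ i1).add (ig _ iD)
  rw [integral_add (ig _ i2) i3, integral_add (ig _ i1) (ig _ iD)]
  have hA' := (le_abs_self _).trans hA
  have hB' := (le_abs_self _).trans hB
  have hfin : 2 * p * L * (n * (3 * η * n + 1)) + δ * (12 * rt s + ε / 3) ≤
      δ * (12 * rt s + ε) := by
    have e : 2 * p * L * (n * (3 * η * n + 1)) = δ * (6 * L * η + 2 * L / n) := by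
      rw [hp]; field_simp; ring
    rw [e]
    have h5 : 2 * L / n ≤ ε / 3 := by
      have h2 : 6 * L / ε ≤ n := by linarith
      rw [div_le_iff₀ hε] at h2
      rw [div_le_iff₀ hn0]
      nlinarith
    have h6 : 6 * L * η + 2 * L / n + (12 * rt s + ε / 3) ≤ 12 * rt s + ε := by linarith
    calc δ * (6 * L * η + 2 * L / n) + δ * (12 * rt s + ε / 3)
        = δ * (6 * L * η + 2 * L / n + (12 * rt s + ε / 3)) := by ring
      _ ≤ δ * (12 * rt s + ε) := mul_le_mul_of_nonneg_left h6 hδ.le
  linarith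

end Pool.Agent.SlabCover
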