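import Pool.Agent.SlabCover.Box

set_option autoImplicit false

open MeasureTheory Set

namespace Pool.Agent.SlabCover

/-- weight `d^{-3/4}` (zero at `d = 0`) -/
noncomputable def fw (d : ℕ) : ℝ := if d = 0 then 0 else 1 / rt (d : ℝ) ^ 3

lemma fw_zero : fw 0 = 0 := by simp [fw]

lemma fw_nonneg (d : ℕ) : 0 ≤ fw d := by
  unfold fw
  split_ifs
  · exact le_refl _
  · exact div_nonneg zero_le_one (pow_nonneg (rt_nonneg _) _)

lemma fw_step (k : ℕ) : 4 * rt (k : ℝ) + fw (k + 1) ≤ 4 * rt ((k + 1 : ℕ) : ℝ) := by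
  unfold fw
  rw [if_neg (Nat.succ_ne_zero k)]
  have hk : (0 : ℝ) ≤ k := Nat.cast_nonneg k
  have hk1 : (0 : ℝ) < ((k + 1 : ℕ) : ℝ) := by positivity
  set a := rt (k : ℝ) with ha
  set b := rt ((k + 1 : ℕ) : ℝ) with hb
  have ha0 : 0 ≤ a := rt_nonneg _
  have hb0 : 0 < b := rt_pos hk1
  have e1 : a ^ 4 = k := rt_pow hk
  have e2 : b ^ 4 = k + 1 := by
    rw [hb, rt_pow hk1.le]; push_cast; ring
  have hab : a ≤ b := by
    rw [← pow_le_pow_iff_left₀ ha0 hb0.le (four_ne_zero)]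
    rw [e1, e2]; linarith
  have key : 1 ≤ (b - a) * (4 * b ^ 3) := by
    have h1 : (b - a) * (b ^ 3 + b ^ 2 * a + b * a ^ 2 + a ^ 3) = 1 := by
      have : (b - a) * (b ^ 3 + b ^ 2 * a + b * a ^ 2 + a ^ 3) = b ^ 4 - a ^ 4 := by ring
      rw [this, e1, e2]; ring
    have h2 : b ^ 2 * a ≤ b ^ 3 := by
      calc b ^ 2 * a ≤ b ^ 2 * b := by gcongr
        _ = b ^ 3 := by ring
    have h3 : b * a ^ 2 ≤ b ^ 3 := by
      calc b * a ^ 2 ≤ b * b ^ 2 := by gcongr
        _ = b ^ 3 := by ring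
    have h4 : a ^ 3 ≤ b ^ 3 := by gcongr
    calc (1 : ℝ) = (b - a) * (b ^ 3 + b ^ 2 * a + b * a ^ 2 + a ^ 3) := h1.symm
      _ ≤ (b - a) * (4 * b ^ 3) := by
          apply mul_le_mul_of_nonneg_left _ (by linarith)
          linarith
  have : 1 / b ^ 3 ≤ 4 * (b - a) := by
    rw [div_le_iff₀ (by positivity)]
    calc (1 : ℝ) ≤ (b - a) * (4 * b ^ 3) := key
      _ = 4 * (b - a) * b ^ 3 := by ring
  linarith

lemma sum_fw_aux (m n : ℕ) : ∑ u ∈ Finset.range n, fw (u - m) ≤ 4 * rt ((n - 1 - m : ℕ) : ℝ) := by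
  induction n with
  | zero => simp; exact rt_nonneg _
  | succ n ih =>
    rw [Finset.sum_range_succ]
    rcases Nat.lt_or_ge m n with h | h
    · have e1 : n - m = (n - 1 - m) + 1 := by omega
      have e2 : n + 1 - 1 - m = (n - 1 - m) + 1 := by omega
      rw [e1, e2]
      have := fw_step (n - 1 - m)
      linarith
    · have e1 : n - m = 0 := by omega
      have e2 : n + 1 - 1 - m = 0 := by omega
      have e3 : n - 1 - m = 0 := by omega
      rw [e1, e2, fw_zero]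
      rw [e3] at ih
      linarith

lemma rt_mono {a b : ℝ} (h : a ≤ b) : rt a ≤ rt b := Real.sqrt_le_sqrt (Real.sqrt_le_sqrt h)

/-- distance of naturals -/
def dn (u v : ℕ) : ℕ := (u - v) + (v - u)

lemma sum_fw (m n : ℕ) (h : m < n) : ∑ u ∈ Finset.range n, fw (dn u m) ≤ 8 * rt (n : ℝ) := by
  have h1 : ∀ u, fw (dn u m) = fw (u - m) + fw (m - u) := by
    intro u
    unfold dn
    rcases Nat.le_total u m with h' | h'
    · rw [Nat.sub_eq_zero_of_le h', fw_zero, Nat.zero_add, zero_add]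
    · rw [Nat.sub_eq_zero_of_le h', fw_zero, Nat.add_zero, add_zero]
  simp only [h1]
  rw [Finset.sum_add_distrib]
  have h2 : ∑ u ∈ Finset.range n, fw (m - u) = ∑ u ∈ Finset.range n, fw (u - (n - 1 - m)) := by
    rw [← Finset.sum_range_reflect]
    apply Finset.sum_congr rfl
    intro u hu
    rw [Finset.mem_range] at hu
    congr 1
    omega
  rw [h2]
  have h3 := sum_fw_aux m n
  have h4 := sum_fw_aux (n - 1 - m) n
  have h5 : rt ((n - 1 - m : ℕ) : ℝ) ≤ rt (n : ℝ) := rt_mono (by exact_mod_cast (by omega))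
  have h6 : rt ((n - 1 - (n - 1 - m) : ℕ) : ℝ) ≤ rt (n : ℝ) := rt_mono (by exact_mod_cast (by omega))
  linarith

lemma sum_fw_fin (n : ℕ) (m : Fin n) : ∑ u : Fin n, fw (dn u.1 m.1) ≤ 8 * rt (n : ℝ) := by
  rw [Fin.sum_univ_eq_sum_range (fun u => fw (dn u m.1)) n]
  exact sum_fw m.1 n m.2

/-- slope difference to weight -/
lemma rt_div' (a b : ℝ) (ha : 0 ≤ a) : rt (a / b) = rt a / rt b := by
  unfold rt
  rw [Real.sqrt_div ha, Real.sqrt_div (Real.sqrt_nonneg _)]

lemma abs_diff (n : ℕ) (u v : ℕ) : |(u : ℝ) / n - (v : ℝ) / n| = (dn u v : ℕ) / (n : ℝ) := by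
  rw [← sub_div, abs_div, abs_of_nonneg (Nat.cast_nonneg n : (0 : ℝ) ≤ (n : ℝ))]
  congr 1
  unfold dn
  rcases Nat.le_total u v with h' | h'
  · rw [Nat.sub_eq_zero_of_le h', Nat.zero_add, Nat.cast_sub h', abs_sub_comm, abs_of_nonneg]
    have : (u : ℝ) ≤ v := by exact_mod_cast h'
    linarith
  · rw [Nat.sub_eq_zero_of_le h', Nat.add_zero, Nat.cast_sub h', abs_of_nonneg]
    have : (v : ℝ) ≤ u := by exact_mod_cast h'
    linarith

lemma dn_eq_zero {u v : ℕ} : dn u v = 0 ↔ u = v := by unfold dn; omega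

/-- the counting bound for step A -/
lemma count_bound (n : ℕ) (hn : 0 < n) (b η : ℝ) (hη : 0 < η) (φ : Fin n → ℝ)
    (h1 : ∀ u, φ u ≤ 1) (h2 : ∀ u : Fin n, (u.1 : ℝ) / n - b ≠ 0 → φ u ≤ η ^ 2 / |(u.1 : ℝ) / n - b|) :
    ∑ u, φ u ≤ 3 * η * n + 1 := by
  have hn' : (0 : ℝ) < n := by exact_mod_cast hn
  have h3 : ∀ u : Fin n, φ u ≤ (if |(u.1 : ℝ) / n - b| ≤ η then 1 else 0) + η := by
    intro u
    split_ifs with h
    · have := h1 u; linarith
    · push Not at h
      have hne : (u.1 : ℝ) / n - b ≠ 0 := by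
        intro h0; rw [h0, abs_zero] at h; linarith
      have := h2 u hne
      have h4 : η ^ 2 / |(u.1 : ℝ) / n - b| ≤ η := by
        rw [div_le_iff₀ (by linarith)]
        nlinarith
      linarith
  have h4 : ∑ u, φ u ≤ ∑ u : Fin n, ((if |(u.1 : ℝ) / n - b| ≤ η then (1 : ℝ) else 0) + η) :=
    Finset.sum_le_sum (fun u _ => h3 u)
  rw [Finset.sum_add_distrib, Finset.sum_const, Finset.card_univ, Fintype.card_fin, nsmul_eq_mul] at h4
  have h5 : ∑ u : Fin n, (if |(u.1 : ℝ) / n - b| ≤ η then (1 : ℝ) else 0) ≤ 2 * η * n + 1 := by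
    rw [Finset.sum_ite, Finset.sum_const_zero, add_zero, Finset.sum_const, nsmul_eq_mul, mul_one]
    set T := Finset.univ.filter (fun u : Fin n => |(u.1 : ℝ) / n - b| ≤ η) with hT
    have hc : T.card ≤ (Finset.Icc ⌈(b - η) * n⌉ ⌊(b + η) * n⌋).card := by
      apply Finset.card_le_card_of_injOn (fun u : Fin n => (u.1 : ℤ))
      · intro u hu
        rw [hT, Finset.mem_coe, Finset.mem_filter] at hu
        obtain ⟨-, hu⟩ := hu
        rw [abs_le] at hu
        rw [Finset.mem_coe, Finset.mem_Icc]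
        constructor
        · rw [Int.ceil_le]
          push_cast
          have := hu.1
          have h7 : b - η ≤ (u.1 : ℝ) / n := by linarith
          rw [le_div_iff₀ hn'] at h7
          exact h7
        · rw [Int.le_floor]
          push_cast
          have := hu.2
          have h7 : (u.1 : ℝ) / n ≤ b + η := by linarith
          rw [div_le_iff₀ hn'] at h7
          exact h7
      · intro u _ v _ huv
        have : (u.1 : ℤ) = v.1 := huv
        exact Fin.ext (by exact_mod_cast this)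
    rw [Int.card_Icc] at hc
    have h6 : ((⌊(b + η) * n⌋ + 1 - ⌈(b - η) * n⌉).toNat : ℝ) ≤ 2 * η * n + 1 := by
      rcases le_total 0 (⌊(b + η) * n⌋ + 1 - ⌈(b - η) * n⌉) with h | h
      · have e : ((⌊(b + η) * n⌋ + 1 - ⌈(b - η) * n⌉).toNat : ℝ) =
            ((⌊(b + η) * n⌋ + 1 - ⌈(b - η) * n⌉ : ℤ) : ℝ) := by
          exact_mod_cast Int.toNat_of_nonneg h
        rw [e]
        push_cast
        have g1 := Int.floor_le ((b + η) * n)
        have g2 := Int.le_ceil ((b - η) * n)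
        nlinarith
      · rw [Int.toNat_of_nonpos h]
        simp only [Nat.cast_zero]
        positivity
    calc (T.card : ℝ) ≤ ((⌊(b + η) * n⌋ + 1 - ⌈(b - η) * n⌉).toNat : ℝ) := by exact_mod_cast hc
      _ ≤ _ := h6
  nlinarith

end Pool.Agent.SlabCover
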